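import Pool.Agent.Run7.h32.Dy.B

/-!
The dyadic model: uniqueness (`StmF`).
-/

set_option autoImplicit false

open Set Filter Topology MeasureTheory

namespace Pool.Agent.Run7.h32.Dy

open Run7.h969.Dy

/-- the identity for the difference of two solutions -/
lemma diff_sum (β ν : ℝ) (x z : ℕ → ℝ) (N : ℕ) :
    ∑ n ∈ Finset.range (N + 1), (x n - z n) * (rhs β ν x n - rhs β ν z n)
      = ∑ n ∈ Finset.range N, (2 : ℝ) ^ (β * n) * x n * ((x n - z n) * (x (n + 1) - z (n + 1)))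
        - ∑ n ∈ Finset.range (N + 1), (2 : ℝ) ^ (β * n) * x (n + 1) * (x n - z n) ^ 2
        - ν * ∑ n ∈ Finset.range (N + 1), 4 ^ n * (x n - z n) ^ 2
        + (2 : ℝ) ^ (β * N) * ((x N - z N) ^ 2 * (x (N + 1) - z (N + 1)))
        - (2 : ℝ) ^ (β * N) * x N * ((x N - z N) * (x (N + 1) - z (N + 1))) := by
  induction N with
  | zero =>
    simp only [zero_add, Finset.sum_range_one, rhs, Nat.cast_zero, mul_zero, Real.rpow_zero,
      pow_zero, Finset.range_zero, Finset.sum_empty]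
    ring
  | succ N ih =>
    rw [Finset.sum_range_succ, ih]
    rw [Finset.sum_range_succ (fun n => (2 : ℝ) ^ (β * n) * x n *
        ((x n - z n) * (x (n + 1) - z (n + 1)))) N,
      Finset.sum_range_succ (fun n => (2 : ℝ) ^ (β * n) * x (n + 1) * (x n - z n) ^ 2) (N + 1),
      Finset.sum_range_succ (fun n => (4 : ℝ) ^ n * (x n - z n) ^ 2) (N + 1)]
    simp only [rhs]
    push_cast
    ring

lemma geo_bound {r : ℝ} (h0 : 0 ≤ r) (h1 : r < 1) (M : ℕ) :
    ∑ n ∈ Finset.range M, r ^ n ≤ 1 / (1 - r) := by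
  rw [geom_sum_eq h1.ne]
  have h2 : (r ^ M - 1) / (r - 1) = (1 - r ^ M) / (1 - r) := by
    rw [← neg_div_neg_eq]
    ring_nf
  rw [h2]
  have : 0 < 1 - r := by linarith
  gcongr
  have : 0 ≤ r ^ M := by positivity
  linarith

/-- the rate -/
lemma rate (β s : ℝ) (n : ℕ) :
    (2 : ℝ) ^ (β * n) = 2 ^ (s * n) * (4 ^ n * ((2 : ℝ) ^ (β - s - 2)) ^ n) := by
  have h4 : (4 : ℝ) ^ n = (2 : ℝ) ^ (2 * (n : ℝ)) := by
    rw [Real.rpow_mul two_pos.le, Real.rpow_natCast]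
    norm_num
  have h5 : ((2 : ℝ) ^ (β - s - 2)) ^ n = (2 : ℝ) ^ ((β - s - 2) * n) := by
    rw [Real.rpow_mul two_pos.le, Real.rpow_natCast]
  rw [h4, h5, ← Real.rpow_add two_pos, ← Real.rpow_add two_pos]
  congr 1
  ring

/-- the coefficients are absorbed by the viscosity, up to finitely many -/
lemma coef {β ν s C : ℝ} (hν : 0 < ν) (hs : β - 2 < s) (hC : 0 ≤ C) : ∃ K : ℝ, 0 ≤ K ∧
    ∀ (n : ℕ) (y : ℝ), 0 ≤ y → (2 : ℝ) ^ (s * n) * y ≤ C → (2 : ℝ) ^ (β * n) * y ≤ ν * 4 ^ n + K := by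
  have hρ : (2 : ℝ) ^ (β - s - 2) < 1 := Real.rpow_lt_one_of_one_lt_of_neg one_lt_two (by linarith)
  have hρ0 : (0 : ℝ) < 2 ^ (β - s - 2) := Real.rpow_pos_of_pos two_pos _
  obtain ⟨m, hm⟩ := exists_pow_lt_of_lt_one (show 0 < ν / (C + 1) by positivity) hρ
  have hm' : C * ((2 : ℝ) ^ (β - s - 2)) ^ m ≤ ν := by
    rw [lt_div_iff₀ (by positivity)] at hm
    have : 0 < ((2 : ℝ) ^ (β - s - 2)) ^ m := by positivity
    linarith
  refine ⟨C * 4 ^ m, by positivity, ?_⟩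
  intro n y hy hyC
  rw [rate β s n]
  have e1 : (2 : ℝ) ^ (s * n) * (4 ^ n * ((2 : ℝ) ^ (β - s - 2)) ^ n) * y
      = (2 : ℝ) ^ (s * n) * y * (4 ^ n * ((2 : ℝ) ^ (β - s - 2)) ^ n) := by ring
  rw [e1]
  have e2 : (2 : ℝ) ^ (s * n) * y * (4 ^ n * ((2 : ℝ) ^ (β - s - 2)) ^ n)
      ≤ C * (4 ^ n * ((2 : ℝ) ^ (β - s - 2)) ^ n) := by gcongr
  refine e2.trans ?_
  rcases le_total m n with h | h
  · have h1 : ((2 : ℝ) ^ (β - s - 2)) ^ n ≤ ((2 : ℝ) ^ (β - s - 2)) ^ m :=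
      pow_le_pow_of_le_one hρ0.le hρ.le h
    have h2 : C * (4 ^ n * ((2 : ℝ) ^ (β - s - 2)) ^ n)
        ≤ C * (4 ^ n * ((2 : ℝ) ^ (β - s - 2)) ^ m) := by gcongr
    have h3 : C * (4 ^ n * ((2 : ℝ) ^ (β - s - 2)) ^ m) ≤ ν * 4 ^ n := by
      calc C * (4 ^ n * ((2 : ℝ) ^ (β - s - 2)) ^ m)
          = C * ((2 : ℝ) ^ (β - s - 2)) ^ m * 4 ^ n := by ring
        _ ≤ ν * 4 ^ n := by gcongr
    have h4 : 0 ≤ C * (4 : ℝ) ^ m := by positivity
    linarith
  · have h1 : ((2 : ℝ) ^ (β - s - 2)) ^ n ≤ 1 := pow_le_one₀ hρ0.le hρ.le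
    have h2 : (4 : ℝ) ^ n ≤ 4 ^ m := pow_le_pow_right₀ (by norm_num) h
    have h3 : C * (4 ^ n * ((2 : ℝ) ^ (β - s - 2)) ^ n) ≤ C * (4 ^ m * 1) := by gcongr
    have h4 : 0 ≤ ν * (4 : ℝ) ^ n := by positivity
    linarith

/-- the energy inequality for the difference -/
lemma diff_le {β ν K : ℝ} (hν : 0 < ν) {x z : ℕ → ℝ} (hx : ∀ n, 0 ≤ x n) (hz : ∀ n, 0 ≤ z n)
    (hK : ∀ n : ℕ, (2 : ℝ) ^ (β * n) * x n ≤ ν * 4 ^ n + K) (hK0 : 0 ≤ K) (N : ℕ) :
    2 * ∑ n ∈ Finset.range (N + 1), (x n - z n) * (rhs β ν x n - rhs β ν z n)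
      ≤ 2 * K * ∑ n ∈ Finset.range (N + 1), (x n - z n) ^ 2
        + (2 : ℝ) ^ (β * N) * x N * ((x N - z N) ^ 2 + (x (N + 1) - z (N + 1)) ^ 2) := by
  rw [diff_sum]
  -- the bulk
  have h1 : ∑ n ∈ Finset.range N, (2 : ℝ) ^ (β * n) * x n * ((x n - z n) * (x (n + 1) - z (n + 1)))
      ≤ ∑ n ∈ Finset.range N, (ν * 4 ^ n + K) * (((x n - z n) ^ 2 + (x (n + 1) - z (n + 1)) ^ 2) / 2)
      := by
    refine Finset.sum_le_sum fun n _ => ?_
    have a1 : 0 ≤ (2 : ℝ) ^ (β * n) * x n := mul_nonneg (cp β n).le (hx n)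
    calc (2 : ℝ) ^ (β * n) * x n * ((x n - z n) * (x (n + 1) - z (n + 1)))
        ≤ (2 : ℝ) ^ (β * n) * x n * (((x n - z n) ^ 2 + (x (n + 1) - z (n + 1)) ^ 2) / 2) := by
          gcongr
          nlinarith [sq_nonneg ((x n - z n) - (x (n + 1) - z (n + 1)))]
      _ ≤ _ := by
          gcongr
          exact hK n
  have h2 : ∑ n ∈ Finset.range N, (ν * 4 ^ n + K) * (((x n - z n) ^ 2
      + (x (n + 1) - z (n + 1)) ^ 2) / 2)
      ≤ ν * ∑ n ∈ Finset.range (N + 1), 4 ^ n * (x n - z n) ^ 2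
        + K * ∑ n ∈ Finset.range (N + 1), (x n - z n) ^ 2 := by
    have e1 : ∑ n ∈ Finset.range N, (4 : ℝ) ^ n * (x n - z n) ^ 2
        ≤ ∑ n ∈ Finset.range (N + 1), 4 ^ n * (x n - z n) ^ 2 := by
      rw [Finset.sum_range_succ]
      have : 0 ≤ (4 : ℝ) ^ N * (x N - z N) ^ 2 := by positivity
      linarith
    have e2 : ∑ n ∈ Finset.range N, (4 : ℝ) ^ n * (x (n + 1) - z (n + 1)) ^ 2
        ≤ 1 / 4 * ∑ n ∈ Finset.range (N + 1), 4 ^ n * (x n - z n) ^ 2 := by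
      rw [Finset.sum_range_succ' (fun n => (4 : ℝ) ^ n * (x n - z n) ^ 2) N, mul_add,
        Finset.mul_sum]
      have : ∑ n ∈ Finset.range N, (4 : ℝ) ^ n * (x (n + 1) - z (n + 1)) ^ 2
          = ∑ n ∈ Finset.range N, 1 / 4 * (4 ^ (n + 1) * (x (n + 1) - z (n + 1)) ^ 2) := by
        refine Finset.sum_congr rfl fun n _ => ?_
        rw [pow_succ]
        ring
      rw [this]
      have h3 : 0 ≤ (1 / 4 : ℝ) * (4 ^ 0 * (x 0 - z 0) ^ 2) := by positivity
      linarith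
    have e3 : ∑ n ∈ Finset.range N, (x n - z n) ^ 2
        ≤ ∑ n ∈ Finset.range (N + 1), (x n - z n) ^ 2 := by
      rw [Finset.sum_range_succ]
      have : 0 ≤ (x N - z N) ^ 2 := by positivity
      linarith
    have e4 : ∑ n ∈ Finset.range N, (x (n + 1) - z (n + 1)) ^ 2
        ≤ ∑ n ∈ Finset.range (N + 1), (x n - z n) ^ 2 := by
      rw [Finset.sum_range_succ' (fun n => (x n - z n) ^ 2) N]
      have : 0 ≤ (x 0 - z 0) ^ 2 := by positivity
      linarith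
    have e5 : ∑ n ∈ Finset.range N, (ν * 4 ^ n + K) * (((x n - z n) ^ 2
        + (x (n + 1) - z (n + 1)) ^ 2) / 2)
        = ν / 2 * ∑ n ∈ Finset.range N, (4 : ℝ) ^ n * (x n - z n) ^ 2
          + ν / 2 * ∑ n ∈ Finset.range N, (4 : ℝ) ^ n * (x (n + 1) - z (n + 1)) ^ 2
          + K / 2 * ∑ n ∈ Finset.range N, (x n - z n) ^ 2
          + K / 2 * ∑ n ∈ Finset.range N, (x (n + 1) - z (n + 1)) ^ 2 := by
      rw [Finset.mul_sum, Finset.mul_sum, Finset.mul_sum, Finset.mul_sum,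
        ← Finset.sum_add_distrib, ← Finset.sum_add_distrib, ← Finset.sum_add_distrib]
      refine Finset.sum_congr rfl fun n _ => ?_
      ring
    rw [e5]
    have f0 : 0 ≤ ∑ n ∈ Finset.range (N + 1), (4 : ℝ) ^ n * (x n - z n) ^ 2 :=
      Finset.sum_nonneg fun n _ => by positivity
    nlinarith [mul_le_mul_of_nonneg_left e1 hν.le, mul_le_mul_of_nonneg_left e2 hν.le,
      mul_le_mul_of_nonneg_left e3 hK0, mul_le_mul_of_nonneg_left e4 hK0, mul_nonneg hν.le f0]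
  -- the last term of the negative sum
  have h3 : (2 : ℝ) ^ (β * N) * x (N + 1) * (x N - z N) ^ 2
      ≤ ∑ n ∈ Finset.range (N + 1), (2 : ℝ) ^ (β * n) * x (n + 1) * (x n - z n) ^ 2 :=
    Finset.single_le_sum (f := fun n : ℕ => (2 : ℝ) ^ (β * n) * x (n + 1) * (x n - z n) ^ 2)
      (fun n _ => mul_nonneg (mul_nonneg (cp β n).le (hx _)) (sq_nonneg _))
      (Finset.mem_range.2 (Nat.lt_succ_self N))
  have h4 : (2 : ℝ) ^ (β * N) * ((x N - z N) ^ 2 * (x (N + 1) - z (N + 1)))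
      ≤ (2 : ℝ) ^ (β * N) * x (N + 1) * (x N - z N) ^ 2 := by
    have a1 := cp β N
    have a2 := hz (N + 1)
    calc (2 : ℝ) ^ (β * N) * ((x N - z N) ^ 2 * (x (N + 1) - z (N + 1)))
        ≤ (2 : ℝ) ^ (β * N) * ((x N - z N) ^ 2 * x (N + 1)) := by
          gcongr
          linarith
      _ = _ := by ring
  have h5 : -((2 : ℝ) ^ (β * N) * x N * ((x N - z N) * (x (N + 1) - z (N + 1))))
      ≤ (2 : ℝ) ^ (β * N) * x N * (((x N - z N) ^ 2 + (x (N + 1) - z (N + 1)) ^ 2) / 2) := by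
    have a1 : 0 ≤ (2 : ℝ) ^ (β * N) * x N := mul_nonneg (cp β N).le (hx N)
    rw [← mul_neg]
    gcongr
    nlinarith [sq_nonneg ((x N - z N) + (x (N + 1) - z (N + 1)))]
  linarith

theorem stmF : StmF := by
  intro β ν s C x X Z hν hs hs2 hx hX hXC hZ
  have hXn := stmN β ν x X hν hx hX
  have hZn := stmN β ν x Z hν hx hZ
  have hC : 0 ≤ C := by
    have h1 := hXC 0 0 le_rfl
    have h2 := hXn 0 0 le_rfl
    simp only [Nat.cast_zero, mul_zero, Real.rpow_zero, one_mul] at h1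
    exact h2.trans h1
  obtain ⟨K, hK0, hK⟩ := coef (C := C) hν hs2 hC
  set ρ : ℝ := (2 : ℝ) ^ (β - s - 2) with hρd
  have hρ : ρ < 1 := Real.rpow_lt_one_of_one_lt_of_neg one_lt_two (by linarith)
  have hρ0 : 0 < ρ := Real.rpow_pos_of_pos two_pos _
  set σ : ℝ := (2 : ℝ) ^ (-s) with hσd
  have hσ : σ < 1 := Real.rpow_lt_one_of_one_lt_of_neg one_lt_two (by linarith)
  have hσ0 : 0 < σ := Real.rpow_pos_of_pos two_pos _
  -- the energy of the data
  have hxs : ∀ n, x n ≤ C * σ ^ n := by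
    intro n
    have h1 := hXC n 0 le_rfl
    rw [hX.init n] at h1
    have h2 : σ ^ n * (2 : ℝ) ^ (s * n) = 1 := by
      rw [hσd, ← Real.rpow_natCast, ← Real.rpow_mul two_pos.le, ← Real.rpow_add two_pos]
      ring_nf
      exact Real.rpow_zero _
    calc x n = σ ^ n * (2 : ℝ) ^ (s * n) * x n := by rw [h2, one_mul]
      _ = σ ^ n * ((2 : ℝ) ^ (s * n) * x n) := by ring
      _ ≤ σ ^ n * C := by gcongr
      _ = _ := by ring
  set E : ℝ := C ^ 2 * (1 / (1 - σ ^ 2)) with hEd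
  have hE : ∀ M, ∑ n ∈ Finset.range M, x n ^ 2 ≤ E := by
    intro M
    have h1 : ∑ n ∈ Finset.range M, x n ^ 2 ≤ ∑ n ∈ Finset.range M, C ^ 2 * (σ ^ 2) ^ n := by
      refine Finset.sum_le_sum fun n _ => ?_
      have h2 : x n ^ 2 ≤ (C * σ ^ n) ^ 2 := pow_le_pow_left₀ (hx n) (hxs n) 2
      calc x n ^ 2 ≤ (C * σ ^ n) ^ 2 := h2
        _ = _ := by ring
    rw [← Finset.mul_sum] at h1
    exact h1.trans (mul_le_mul_of_nonneg_left
      (geo_bound (by positivity) (pow_lt_one₀ hσ0.le hσ two_ne_zero) M) (by positivity))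
  intro n t ht
  -- the bound for every `N`
  have key : ∀ N : ℕ, Real.exp (-(2 * K) * t) * ∑ k ∈ Finset.range (N + 1), (X k t - Z k t) ^ 2
      ≤ C * ρ ^ N / (2 * ν) * (2 * E) := by
    intro N
    set θ : ℝ := C * ρ ^ N / (2 * ν) with hθ
    have hθ0 : 0 ≤ θ := by positivity
    set Ψ : ℝ → ℝ := fun r => Real.exp (-(2 * K) * r) *
        (∑ k ∈ Finset.range (N + 1), (X k r - Z k r) ^ 2)
      + θ * (∑ k ∈ Finset.range (N + 1 + 1), X k r ^ 2 + ∑ k ∈ Finset.range (N + 1 + 1), Z k r ^ 2)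
      with hΨ
    have hexp : ∀ r : ℝ, HasDerivAt (fun r => Real.exp (-(2 * K) * r))
        (Real.exp (-(2 * K) * r) * (-(2 * K) * 1)) r := fun r =>
      ((hasDerivAt_id r).const_mul (-(2 * K))).exp
    have hFd : ∀ r, 0 < r → HasDerivAt (fun r => ∑ k ∈ Finset.range (N + 1), (X k r - Z k r) ^ 2)
        (2 * ∑ k ∈ Finset.range (N + 1), (X k r - Z k r) *
          (rhs β ν (fun k => X k r) k - rhs β ν (fun k => Z k r) k)) r := by
      intro r hr
      have h1 : HasDerivAt (fun r => ∑ k ∈ Finset.range (N + 1), (X k r - Z k r) ^ 2)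
          (∑ k ∈ Finset.range (N + 1), 2 * ((X k r - Z k r) *
          (rhs β ν (fun k => X k r) k - rhs β ν (fun k => Z k r) k))) r := by
        refine HasDerivAt.fun_sum fun k _ => ?_
        refine (((hX.ode k r hr).fun_sub (hZ.ode k r hr)).fun_pow 2).congr_deriv ?_
        norm_num
        ring
      rw [Finset.mul_sum]
      exact h1
    have hEX : ∀ r, 0 < r → HasDerivAt (fun r => ∑ k ∈ Finset.range (N + 1 + 1), X k r ^ 2)
        (-2 * ((2 : ℝ) ^ (β * ((N + 1 : ℕ) : ℝ)) * (X (N + 1) r ^ 2 * X (N + 1 + 1) r))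
        - 2 * ν * ∑ n ∈ Finset.range (N + 1 + 1), 4 ^ n * X n r ^ 2) r := by
      intro r hr
      have := energy_hd (S := univ) (β := β) (ν := ν) (X := X) (t := r) (N + 1)
        (fun n _ => (hX.ode n r hr).hasDerivWithinAt)
      exact this.hasDerivAt univ_mem
    have hEZ : ∀ r, 0 < r → HasDerivAt (fun r => ∑ k ∈ Finset.range (N + 1 + 1), Z k r ^ 2)
        (-2 * ((2 : ℝ) ^ (β * ((N + 1 : ℕ) : ℝ)) * (Z (N + 1) r ^ 2 * Z (N + 1 + 1) r))
        - 2 * ν * ∑ n ∈ Finset.range (N + 1 + 1), 4 ^ n * Z n r ^ 2) r := by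
      intro r hr
      have := energy_hd (S := univ) (β := β) (ν := ν) (X := Z) (t := r) (N + 1)
        (fun n _ => (hZ.ode n r hr).hasDerivWithinAt)
      exact this.hasDerivAt univ_mem
    have hΨd : ∀ r, 0 < r → HasDerivAt Ψ
        ((Real.exp (-(2 * K) * r) * (-(2 * K) * 1)) *
          (∑ k ∈ Finset.range (N + 1), (X k r - Z k r) ^ 2)
        + Real.exp (-(2 * K) * r) * (2 * ∑ k ∈ Finset.range (N + 1), (X k r - Z k r) *
          (rhs β ν (fun k => X k r) k - rhs β ν (fun k => Z k r) k))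
        + θ * ((-2 * ((2 : ℝ) ^ (β * ((N + 1 : ℕ) : ℝ)) * (X (N + 1) r ^ 2 * X (N + 1 + 1) r))
            - 2 * ν * ∑ n ∈ Finset.range (N + 1 + 1), 4 ^ n * X n r ^ 2)
          + (-2 * ((2 : ℝ) ^ (β * ((N + 1 : ℕ) : ℝ)) * (Z (N + 1) r ^ 2 * Z (N + 1 + 1) r))
            - 2 * ν * ∑ n ∈ Finset.range (N + 1 + 1), 4 ^ n * Z n r ^ 2))) r := fun r hr =>
      ((hexp r).fun_mul (hFd r hr)).fun_add (((hEX r hr).fun_add (hEZ r hr)).const_mul θ)
    have hcX : ∀ k, ContinuousOn (X k) (Icc 0 t) := fun k => (hX.cont k).mono Icc_subset_Ici_self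
    have hcZ : ∀ k, ContinuousOn (Z k) (Icc 0 t) := fun k => (hZ.cont k).mono Icc_subset_Ici_self
    have hΨc : ContinuousOn Ψ (Icc 0 t) := by
      refine ContinuousOn.add (ContinuousOn.mul ?_ ?_) (continuousOn_const.mul (ContinuousOn.add ?_ ?_))
      · exact fun r _ => (hexp r).continuousAt.continuousWithinAt
      · exact continuousOn_finsetSum _ fun k _ => ((hcX k).sub (hcZ k)).pow 2
      · exact continuousOn_finsetSum _ fun k _ => (hcX k).pow 2
      · exact continuousOn_finsetSum _ fun k _ => (hcZ k).pow 2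
    have hanti : AntitoneOn Ψ (Icc 0 t) := by
      refine antitoneOn_of_deriv_nonpos (convex_Icc 0 t) hΨc ?_ ?_
      · intro r hr
        rw [interior_Icc] at hr
        exact (hΨd r hr.1).differentiableAt.differentiableWithinAt
      · intro r hr
        rw [interior_Icc] at hr
        have hr0 := hr.1
        rw [(hΨd r hr0).deriv]
        have hxr : ∀ k, 0 ≤ X k r := fun k => hXn k r hr0.le
        have hzr : ∀ k, 0 ≤ Z k r := fun k => hZn k r hr0.le
        have h1 := diff_le (x := fun k => X k r) (z := fun k => Z k r) hν hxr hzr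
          (fun k => hK k (X k r) (hxr k) (hXC k r hr0.le)) hK0 N
        -- the boundary term
        have h2 : (2 : ℝ) ^ (β * N) * X N r ≤ C * (4 ^ N * ρ ^ N) := by
          rw [rate β s N]
          calc (2 : ℝ) ^ (s * N) * (4 ^ N * ((2 : ℝ) ^ (β - s - 2)) ^ N) * X N r
              = (2 : ℝ) ^ (s * N) * X N r * (4 ^ N * ρ ^ N) := by ring
            _ ≤ C * (4 ^ N * ρ ^ N) := by
                gcongr
                exact hXC N r hr0.le
        have h3 : ∀ k, (X k r - Z k r) ^ 2 ≤ X k r ^ 2 + Z k r ^ 2 := by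
          intro k
          nlinarith [mul_nonneg (hxr k) (hzr k)]
        have hee : Real.exp (-(2 * K) * r) ≤ 1 := by
          rw [Real.exp_le_one_iff]
          nlinarith
        have he0 := Real.exp_pos (-(2 * K) * r)
        have h4 : (2 : ℝ) ^ (β * N) * X N r *
            ((X N r - Z N r) ^ 2 + (X (N + 1) r - Z (N + 1) r) ^ 2)
            ≤ C * (4 ^ N * ρ ^ N) * ((X N r ^ 2 + Z N r ^ 2) + (X (N + 1) r ^ 2 + Z (N + 1) r ^ 2)) := by
          have a0 : 0 ≤ (2 : ℝ) ^ (β * N) * X N r := mul_nonneg (cp β N).le (hxr N)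
          gcongr
          · exact h3 N
          · exact h3 (N + 1)
        have h5 : ∀ Y : ℕ → ℝ → ℝ, 4 ^ N * (Y N r ^ 2 + Y (N + 1) r ^ 2)
            ≤ ∑ n ∈ Finset.range (N + 1 + 1), (4 : ℝ) ^ n * Y n r ^ 2 := by
          intro Y
          rw [Finset.sum_range_succ, Finset.sum_range_succ]
          have b1 : 0 ≤ ∑ n ∈ Finset.range N, (4 : ℝ) ^ n * Y n r ^ 2 :=
            Finset.sum_nonneg fun n _ => by positivity
          have b2 : (4 : ℝ) ^ N * Y (N + 1) r ^ 2 ≤ 4 ^ (N + 1) * Y (N + 1) r ^ 2 := by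
            gcongr
            · norm_num
            · exact Nat.le_succ N
          linarith
        have h6 := h5 X
        have h7 := h5 Z
        have h8 : 0 ≤ (2 : ℝ) ^ (β * ((N + 1 : ℕ) : ℝ)) * (X (N + 1) r ^ 2 * X (N + 1 + 1) r) :=
          mul_nonneg (cp β _).le (mul_nonneg (sq_nonneg _) (hxr _))
        have h9 : 0 ≤ (2 : ℝ) ^ (β * ((N + 1 : ℕ) : ℝ)) * (Z (N + 1) r ^ 2 * Z (N + 1 + 1) r) :=
          mul_nonneg (cp β _).le (mul_nonneg (sq_nonneg _) (hzr _))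
        -- the first two terms
        set A1 : ℝ := ∑ k ∈ Finset.range (N + 1), (X k r - Z k r) ^ 2 with hA1
        set A2 : ℝ := ∑ k ∈ Finset.range (N + 1), (X k r - Z k r) *
          (rhs β ν (fun k => X k r) k - rhs β ν (fun k => Z k r) k) with hA2
        set B1 : ℝ := ∑ n ∈ Finset.range (N + 1 + 1), (4 : ℝ) ^ n * X n r ^ 2 with hB1
        set B2 : ℝ := ∑ n ∈ Finset.range (N + 1 + 1), (4 : ℝ) ^ n * Z n r ^ 2 with hB2
        have h10 : Real.exp (-(2 * K) * r) * (-(2 * K) * 1) * A1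
            + Real.exp (-(2 * K) * r) * (2 * A2)
            ≤ Real.exp (-(2 * K) * r) * (C * (4 ^ N * ρ ^ N) *
              ((X N r ^ 2 + Z N r ^ 2) + (X (N + 1) r ^ 2 + Z (N + 1) r ^ 2))) := by
          have : -(2 * K) * 1 * A1 + 2 * A2 ≤ C * (4 ^ N * ρ ^ N) *
              ((X N r ^ 2 + Z N r ^ 2) + (X (N + 1) r ^ 2 + Z (N + 1) r ^ 2)) := by linarith
          calc Real.exp (-(2 * K) * r) * (-(2 * K) * 1) * A1
              + Real.exp (-(2 * K) * r) * (2 * A2)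
              = Real.exp (-(2 * K) * r) * (-(2 * K) * 1 * A1 + 2 * A2) := by ring
            _ ≤ _ := by gcongr
        have h11 : Real.exp (-(2 * K) * r) * (C * (4 ^ N * ρ ^ N) *
              ((X N r ^ 2 + Z N r ^ 2) + (X (N + 1) r ^ 2 + Z (N + 1) r ^ 2)))
            ≤ 1 * (C * (4 ^ N * ρ ^ N) *
              ((X N r ^ 2 + Z N r ^ 2) + (X (N + 1) r ^ 2 + Z (N + 1) r ^ 2))) := by
          gcongr
        have h12 : C * (4 ^ N * ρ ^ N) *
              ((X N r ^ 2 + Z N r ^ 2) + (X (N + 1) r ^ 2 + Z (N + 1) r ^ 2))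
            = θ * (2 * ν * (4 ^ N * (X N r ^ 2 + X (N + 1) r ^ 2)
              + 4 ^ N * (Z N r ^ 2 + Z (N + 1) r ^ 2))) := by
          rw [hθ]
          field_simp
          ring
        have h13 : θ * (2 * ν * (4 ^ N * (X N r ^ 2 + X (N + 1) r ^ 2)
              + 4 ^ N * (Z N r ^ 2 + Z (N + 1) r ^ 2))) ≤ θ * (2 * ν * (B1 + B2)) := by
          gcongr
        have h14 := mul_nonneg hθ0 h8
        have h15 := mul_nonneg hθ0 h9
        nlinarith
    have h1 := hanti ⟨le_rfl, ht⟩ ⟨ht, le_rfl⟩ ht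
    have h2 : Ψ 0 ≤ θ * (2 * E) := by
      simp only [hΨ]
      have e1 : ∑ k ∈ Finset.range (N + 1), (X k 0 - Z k 0) ^ 2 = 0 := by
        refine Finset.sum_eq_zero fun k _ => ?_
        rw [hX.init k, hZ.init k]
        ring
      have e2 : ∑ k ∈ Finset.range (N + 1 + 1), X k 0 ^ 2 ≤ E := by
        refine le_trans (le_of_eq ?_) (hE (N + 1 + 1))
        exact Finset.sum_congr rfl fun k _ => by rw [hX.init k]
      have e3 : ∑ k ∈ Finset.range (N + 1 + 1), Z k 0 ^ 2 ≤ E := by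
        refine le_trans (le_of_eq ?_) (hE (N + 1 + 1))
        exact Finset.sum_congr rfl fun k _ => by rw [hZ.init k]
      rw [e1, mul_zero, zero_add]
      gcongr
      linarith
    have h3 : Real.exp (-(2 * K) * t) * (∑ k ∈ Finset.range (N + 1), (X k t - Z k t) ^ 2) ≤ Ψ t := by
      simp only [hΨ]
      have e1 : 0 ≤ ∑ k ∈ Finset.range (N + 1 + 1), X k t ^ 2 :=
        Finset.sum_nonneg fun k _ => sq_nonneg _
      have e2 : 0 ≤ ∑ k ∈ Finset.range (N + 1 + 1), Z k t ^ 2 :=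
        Finset.sum_nonneg fun k _ => sq_nonneg _
      have : 0 ≤ θ * (∑ k ∈ Finset.range (N + 1 + 1), X k t ^ 2
        + ∑ k ∈ Finset.range (N + 1 + 1), Z k t ^ 2) := by positivity
      linarith
    exact h3.trans (h1.trans h2)
  -- the limit
  have hlim : Tendsto (fun N : ℕ => C * ρ ^ N / (2 * ν) * (2 * E)) atTop (𝓝 0) := by
    have h1 := tendsto_pow_atTop_nhds_zero_of_lt_one hρ0.le hρ
    have h2 := ((h1.const_mul C).div_const (2 * ν)).mul_const (2 * E)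
    simpa using h2
  have h1 : Real.exp (-(2 * K) * t) * (X n t - Z n t) ^ 2 ≤ 0 := by
    refine ge_of_tendsto hlim ?_
    filter_upwards [eventually_ge_atTop n] with N hN
    refine le_trans ?_ (key N)
    have h2 : (X n t - Z n t) ^ 2 ≤ ∑ k ∈ Finset.range (N + 1), (X k t - Z k t) ^ 2 :=
      Finset.single_le_sum (f := fun k => (X k t - Z k t) ^ 2) (fun k _ => sq_nonneg _)
        (Finset.mem_range.2 (Nat.lt_succ_of_le hN))
    have h3 := Real.exp_pos (-(2 * K) * t)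
    gcongr
  have h2 := Real.exp_pos (-(2 * K) * t)
  have h3 : (X n t - Z n t) ^ 2 ≤ 0 := by
    by_contra hc
    push Not at hc
    have := mul_pos h2 hc
    linarith
  have h4 : X n t - Z n t = 0 := by
    have := le_antisymm h3 (sq_nonneg _)
    exact pow_eq_zero_iff two_ne_zero |>.1 this
  linarith

end Pool.Agent.Run7.h32.Dy
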