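import Pool.Agent.Run7.h32.Dy.E
import Pool.Agent.Run7.h32.Dy.F

/-!
The dyadic model: well-posedness for nonnegative square summable data.
-/

set_option autoImplicit false

open Set Filter Topology MeasureTheory

namespace Pool.Agent.Run7.h32.Dy

open Run7.h969.Dy

variable {β ν : ℝ} {x : ℕ → ℝ} {X : ℕ → ℝ → ℝ}

/-! ### energy -/

/-- the energy of the first shells of a nonnegative solution does not increase -/
lemma energy_anti (hν : 0 < ν) (hX : IsDy β ν x X) (hXn : ∀ n t, 0 ≤ t → 0 ≤ X n t) (N : ℕ)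
    {t : ℝ} (ht : 0 ≤ t) :
    ∑ n ∈ Finset.range (N + 1), X n t ^ 2 ≤ ∑ n ∈ Finset.range (N + 1), x n ^ 2 := by
  have hE : ∀ r, 0 < r → HasDerivAt (fun r => ∑ k ∈ Finset.range (N + 1), X k r ^ 2)
      (-2 * ((2 : ℝ) ^ (β * N) * (X N r ^ 2 * X (N + 1) r))
      - 2 * ν * ∑ n ∈ Finset.range (N + 1), 4 ^ n * X n r ^ 2) r := by
    intro r hr
    have := energy_hd (S := univ) (β := β) (ν := ν) (X := X) (t := r) N
      (fun n _ => (hX.ode n r hr).hasDerivWithinAt)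
    exact this.hasDerivAt univ_mem
  have hanti : AntitoneOn (fun r => ∑ k ∈ Finset.range (N + 1), X k r ^ 2) (Icc 0 t) := by
    refine antitoneOn_of_deriv_nonpos (convex_Icc 0 t)
      (continuousOn_finsetSum _ fun k _ => ((hX.cont k).mono Icc_subset_Ici_self).pow 2) ?_ ?_
    · intro r hr
      rw [interior_Icc] at hr
      exact (hE r hr.1).differentiableAt.differentiableWithinAt
    · intro r hr
      rw [interior_Icc] at hr
      rw [(hE r hr.1).deriv]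
      have h1 : 0 ≤ (2 : ℝ) ^ (β * N) * (X N r ^ 2 * X (N + 1) r) :=
        mul_nonneg (cp β N).le (mul_nonneg (sq_nonneg _) (hXn _ r hr.1.le))
      have h2 : 0 ≤ ∑ n ∈ Finset.range (N + 1), (4 : ℝ) ^ n * X n r ^ 2 :=
        Finset.sum_nonneg fun n _ => by positivity
      have h3 : 0 ≤ ν * ∑ n ∈ Finset.range (N + 1), (4 : ℝ) ^ n * X n r ^ 2 := by positivity
      linarith
  have h1 := hanti ⟨le_rfl, ht⟩ ⟨ht, le_rfl⟩ ht
  refine h1.trans (le_of_eq ?_)
  exact Finset.sum_congr rfl fun k _ => by rw [hX.init k]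

lemma sum_le_E (hx2 : Summable fun n => x n ^ 2) (N : ℕ) :
    ∑ n ∈ Finset.range N, x n ^ 2 ≤ ∑' n, x n ^ 2 :=
  hx2.sum_le_tsum _ fun n _ => sq_nonneg _

lemma le_sqrtE (hν : 0 < ν) (hx2 : Summable fun n => x n ^ 2) (hX : IsDy β ν x X)
    (hXn : ∀ n t, 0 ≤ t → 0 ≤ X n t) (n : ℕ) {t : ℝ} (ht : 0 ≤ t) :
    X n t ≤ √(∑' n, x n ^ 2) := by
  apply Real.le_sqrt_of_sq_le
  have h1 : X n t ^ 2 ≤ ∑ k ∈ Finset.range (n + 1), X k t ^ 2 :=
    Finset.single_le_sum (f := fun k => X k t ^ 2) (fun k _ => sq_nonneg _)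
      (Finset.mem_range.2 (Nat.lt_succ_self n))
  exact h1.trans ((energy_anti hν hX hXn n ht).trans (sum_le_E hx2 _))

/-! ### uniqueness -/

/-- the weighted identity for the difference of two solutions -/
lemma wdiff_sum (β ν : ℝ) (x z : ℕ → ℝ) (N : ℕ) :
    ∑ n ∈ Finset.range (N + 1), (1 / 2 : ℝ) ^ n * ((x n - z n) * (rhs β ν x n - rhs β ν z n))
      = -((1 / 2 : ℝ) ^ (N + 1) * ((2 : ℝ) ^ (β * N) *
          ((x N ^ 2 - z N ^ 2) * (x (N + 1) - z (N + 1)))))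
        - ∑ n ∈ Finset.range (N + 1), (1 / 2 : ℝ) ^ (n + 1) *
          ((2 : ℝ) ^ (β * n) * ((x (n + 1) + z (n + 1)) * (x n - z n) ^ 2))
        - ν * ∑ n ∈ Finset.range (N + 1), (1 / 2 : ℝ) ^ n * (4 ^ n * (x n - z n) ^ 2) := by
  induction N with
  | zero =>
    simp only [zero_add, Finset.sum_range_one, rhs, Nat.cast_zero, mul_zero, Real.rpow_zero,
      pow_zero, pow_one]
    ring
  | succ N ih =>
    rw [Finset.sum_range_succ, ih]
    rw [Finset.sum_range_succ (fun n => (1 / 2 : ℝ) ^ (n + 1) *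
          ((2 : ℝ) ^ (β * n) * ((x (n + 1) + z (n + 1)) * (x n - z n) ^ 2))) (N + 1),
      Finset.sum_range_succ (fun n => (1 / 2 : ℝ) ^ n * (4 ^ n * (x n - z n) ^ 2)) (N + 1)]
    simp only [rhs]
    push_cast
    ring

/-- the dissipation of the first shells -/
lemma diss_le (hν : 0 < ν) (hx2 : Summable fun n => x n ^ 2) (hX : IsDy β ν x X)
    (hXn : ∀ n t, 0 ≤ t → 0 ≤ X n t) (N : ℕ) {t : ℝ} (ht : 0 ≤ t) :
    ∫ s in (0 : ℝ)..t, ∑ n ∈ Finset.range (N + 1), 4 ^ n * X n s ^ 2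
      ≤ (∑' n, x n ^ 2) / (2 * ν) := by
  have hc : ∀ k, ContinuousOn (X k) (Icc 0 t) := fun k => (hX.cont k).mono Icc_subset_Ici_self
  have hc1 : ContinuousOn (fun s => (2 : ℝ) ^ (β * N) * (X N s ^ 2 * X (N + 1) s)) (Icc 0 t) :=
    continuousOn_const.mul (((hc N).pow 2).mul (hc (N + 1)))
  have hc2 : ContinuousOn (fun s => ∑ n ∈ Finset.range (N + 1), (4 : ℝ) ^ n * X n s ^ 2)
      (Icc 0 t) := continuousOn_finsetSum _ fun n _ => continuousOn_const.mul ((hc n).pow 2)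
  have hi1 : IntervalIntegrable (fun s => (2 : ℝ) ^ (β * N) * (X N s ^ 2 * X (N + 1) s)) volume 0 t :=
    ContinuousOn.intervalIntegrable (by rw [uIcc_of_le ht]; exact hc1)
  have hi2 : IntervalIntegrable (fun s => ∑ n ∈ Finset.range (N + 1), (4 : ℝ) ^ n * X n s ^ 2)
      volume 0 t := ContinuousOn.intervalIntegrable (by rw [uIcc_of_le ht]; exact hc2)
  have h1 : ∫ s in (0 : ℝ)..t, (-2 * ((2 : ℝ) ^ (β * N) * (X N s ^ 2 * X (N + 1) s))
      - 2 * ν * ∑ n ∈ Finset.range (N + 1), 4 ^ n * X n s ^ 2)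
      = ∑ n ∈ Finset.range (N + 1), X n t ^ 2 - ∑ n ∈ Finset.range (N + 1), X n 0 ^ 2 := by
    refine intervalIntegral.integral_eq_sub_of_hasDerivAt_of_le ht
      (f := fun s => ∑ n ∈ Finset.range (N + 1), X n s ^ 2) ?_ ?_ ?_
    · exact continuousOn_finsetSum _ fun k _ => (hc k).pow 2
    · intro r hr
      have := energy_hd (S := univ) (β := β) (ν := ν) (X := X) (t := r) N
        (fun n _ => (hX.ode n r hr.1).hasDerivWithinAt)
      exact this.hasDerivAt univ_mem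
    · exact (hi1.const_mul (-2)).sub (hi2.const_mul (2 * ν))
  rw [intervalIntegral.integral_sub (hi1.const_mul (-2)) (hi2.const_mul (2 * ν)),
    intervalIntegral.integral_const_mul (-2), intervalIntegral.integral_const_mul (2 * ν)] at h1
  have h2 : ∑ n ∈ Finset.range (N + 1), X n 0 ^ 2 = ∑ n ∈ Finset.range (N + 1), x n ^ 2 :=
    Finset.sum_congr rfl fun n _ => by rw [hX.init n]
  have h3 : 0 ≤ ∫ s in (0 : ℝ)..t, (2 : ℝ) ^ (β * N) * (X N s ^ 2 * X (N + 1) s) :=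
    intervalIntegral.integral_nonneg ht fun s hs =>
      mul_nonneg (cp β N).le (mul_nonneg (sq_nonneg _) (hXn _ s hs.1))
  have h4 := sum_le_E hx2 (N + 1)
  have h5 : 0 ≤ ∑ n ∈ Finset.range (N + 1), X n t ^ 2 := Finset.sum_nonneg fun n _ => sq_nonneg _
  rw [le_div_iff₀ (by positivity)]
  linarith

/-- the dissipation of the shell `N` tends to zero -/
lemma diss_tendsto (hν : 0 < ν) (hx2 : Summable fun n => x n ^ 2) (hX : IsDy β ν x X)
    (hXn : ∀ n t, 0 ≤ t → 0 ≤ X n t) {t : ℝ} (ht : 0 ≤ t) :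
    Tendsto (fun N : ℕ => ∫ s in (0 : ℝ)..t, 4 ^ N * X N s ^ 2) atTop (𝓝 0) := by
  have hc : ∀ k, ContinuousOn (X k) (Icc 0 t) := fun k => (hX.cont k).mono Icc_subset_Ici_self
  have hi : ∀ n : ℕ, IntervalIntegrable (fun s => (4 : ℝ) ^ n * X n s ^ 2) volume 0 t := fun n =>
    ContinuousOn.intervalIntegrable (by
      rw [uIcc_of_le ht]
      exact continuousOn_const.mul ((hc n).pow 2))
  have h0 : ∀ n : ℕ, 0 ≤ ∫ s in (0 : ℝ)..t, (4 : ℝ) ^ n * X n s ^ 2 := fun n =>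
    intervalIntegral.integral_nonneg ht fun s _ => by positivity
  have hs : Summable fun N : ℕ => ∫ s in (0 : ℝ)..t, (4 : ℝ) ^ N * X N s ^ 2 := by
    refine summable_of_sum_range_le h0 (c := (∑' n, x n ^ 2) / (2 * ν)) fun N => ?_
    have h1 := diss_le hν hx2 hX hXn N ht
    rw [intervalIntegral.integral_finsetSum fun n _ => hi n, Finset.sum_range_succ] at h1
    have := h0 N
    linarith
  exact hs.tendsto_atTop_zero

/-- Uniqueness for nonnegative square summable data. -/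
theorem unique_l2 (hβ : β ≤ 3) (hν : 0 < ν) (hx : ∀ n, 0 ≤ x n)
    (hx2 : Summable fun n => x n ^ 2) {Z : ℕ → ℝ → ℝ} (hX : IsDy β ν x X) (hZ : IsDy β ν x Z) :
    ∀ n t, 0 ≤ t → Z n t = X n t := by
  have hXn := stmN β ν x X hν hx hX
  have hZn := stmN β ν x Z hν hx hZ
  set E : ℝ := ∑' n, x n ^ 2 with hEd
  have hE0 : 0 ≤ E := tsum_nonneg fun n => sq_nonneg _
  have hrate : ∀ n : ℕ, (1 / 2 : ℝ) ^ n * (2 : ℝ) ^ (β * n) ≤ 4 ^ n := by
    intro n
    have h1 : (1 / 2 : ℝ) ^ n = (2 : ℝ) ^ (-(n : ℝ)) := by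
      rw [Real.rpow_neg two_pos.le, Real.rpow_natCast, one_div, inv_pow]
    have h4 : (4 : ℝ) ^ n = (2 : ℝ) ^ (2 * (n : ℝ)) := by
      rw [Real.rpow_mul two_pos.le, Real.rpow_natCast]
      norm_num
    rw [h1, h4, ← Real.rpow_add two_pos]
    apply Real.rpow_le_rpow_of_exponent_le one_le_two
    have : (0 : ℝ) ≤ n := Nat.cast_nonneg n
    nlinarith
  intro n t ht
  have hcX : ∀ k, ContinuousOn (X k) (Icc 0 t) := fun k => (hX.cont k).mono Icc_subset_Ici_self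
  have hcZ : ∀ k, ContinuousOn (Z k) (Icc 0 t) := fun k => (hZ.cont k).mono Icc_subset_Ici_self
  have key : ∀ N : ℕ, ∑ k ∈ Finset.range (N + 1), (1 / 2 : ℝ) ^ k * (X k t - Z k t) ^ 2
      ≤ √E * ((∫ s in (0 : ℝ)..t, 4 ^ N * X N s ^ 2) + ∫ s in (0 : ℝ)..t, 4 ^ N * Z N s ^ 2) := by
    intro N
    have hFd : ∀ r, 0 < r → HasDerivAt
        (fun r => ∑ k ∈ Finset.range (N + 1), (1 / 2 : ℝ) ^ k * (X k r - Z k r) ^ 2)
        (2 * ∑ k ∈ Finset.range (N + 1), (1 / 2 : ℝ) ^ k * ((X k r - Z k r) *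
          (rhs β ν (fun k => X k r) k - rhs β ν (fun k => Z k r) k))) r := by
      intro r hr
      have h1 : HasDerivAt (fun r => ∑ k ∈ Finset.range (N + 1), (1 / 2 : ℝ) ^ k * (X k r - Z k r) ^ 2)
          (∑ k ∈ Finset.range (N + 1), 2 * ((1 / 2 : ℝ) ^ k * ((X k r - Z k r) *
          (rhs β ν (fun k => X k r) k - rhs β ν (fun k => Z k r) k)))) r := by
        refine HasDerivAt.fun_sum fun k _ => ?_
        refine ((((hX.ode k r hr).fun_sub (hZ.ode k r hr)).fun_pow 2).const_mul _).congr_deriv ?_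
        norm_num
        ring
      rw [Finset.mul_sum]
      exact h1
    have hcr : ∀ k, ContinuousOn (fun r => rhs β ν (fun k => X k r) k
        - rhs β ν (fun k => Z k r) k) (Icc 0 t) := fun k => (rhs_cont hcX k).sub (rhs_cont hcZ k)
    have hcF : ContinuousOn (fun r => 2 * ∑ k ∈ Finset.range (N + 1), (1 / 2 : ℝ) ^ k *
        ((X k r - Z k r) * (rhs β ν (fun k => X k r) k - rhs β ν (fun k => Z k r) k))) (Icc 0 t) :=
      continuousOn_const.mul (continuousOn_finsetSum _ fun k _ =>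
        continuousOn_const.mul (((hcX k).sub (hcZ k)).mul (hcr k)))
    have hcG : ContinuousOn (fun r => √E * (4 ^ N * X N r ^ 2 + 4 ^ N * Z N r ^ 2)) (Icc 0 t) :=
      continuousOn_const.mul ((continuousOn_const.mul ((hcX N).pow 2)).add
        (continuousOn_const.mul ((hcZ N).pow 2)))
    have hint : ∫ r in (0 : ℝ)..t, (2 * ∑ k ∈ Finset.range (N + 1), (1 / 2 : ℝ) ^ k *
        ((X k r - Z k r) * (rhs β ν (fun k => X k r) k - rhs β ν (fun k => Z k r) k)))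
        = ∑ k ∈ Finset.range (N + 1), (1 / 2 : ℝ) ^ k * (X k t - Z k t) ^ 2
          - ∑ k ∈ Finset.range (N + 1), (1 / 2 : ℝ) ^ k * (X k 0 - Z k 0) ^ 2 := by
      refine intervalIntegral.integral_eq_sub_of_hasDerivAt_of_le ht
        (f := fun r => ∑ k ∈ Finset.range (N + 1), (1 / 2 : ℝ) ^ k * (X k r - Z k r) ^ 2) ?_ ?_ ?_
      · exact continuousOn_finsetSum _ fun k _ => continuousOn_const.mul (((hcX k).sub (hcZ k)).pow 2)
      · exact fun r hr => hFd r hr.1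
      · exact ContinuousOn.intervalIntegrable (by rw [uIcc_of_le ht]; exact hcF)
    have h0 : ∑ k ∈ Finset.range (N + 1), (1 / 2 : ℝ) ^ k * (X k 0 - Z k 0) ^ 2 = 0 := by
      refine Finset.sum_eq_zero fun k _ => ?_
      rw [hX.init k, hZ.init k]
      ring
    have hle : ∫ r in (0 : ℝ)..t, (2 * ∑ k ∈ Finset.range (N + 1), (1 / 2 : ℝ) ^ k *
        ((X k r - Z k r) * (rhs β ν (fun k => X k r) k - rhs β ν (fun k => Z k r) k)))
        ≤ ∫ r in (0 : ℝ)..t, √E * (4 ^ N * X N r ^ 2 + 4 ^ N * Z N r ^ 2) := by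
      refine intervalIntegral.integral_mono_on ht
        (ContinuousOn.intervalIntegrable (by rw [uIcc_of_le ht]; exact hcF))
        (ContinuousOn.intervalIntegrable (by rw [uIcc_of_le ht]; exact hcG)) fun r hr => ?_
      have hr0 := hr.1
      rw [wdiff_sum]
      have hxr : ∀ k, 0 ≤ X k r := fun k => hXn k r hr0
      have hzr : ∀ k, 0 ≤ Z k r := fun k => hZn k r hr0
      have hxE : X (N + 1) r ≤ √E := le_sqrtE hν hx2 hX hXn (N + 1) hr0
      have hzE : Z (N + 1) r ≤ √E := le_sqrtE hν hx2 hZ hZn (N + 1) hr0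
      have h1 : 0 ≤ ∑ n ∈ Finset.range (N + 1), (1 / 2 : ℝ) ^ (n + 1) *
        ((2 : ℝ) ^ (β * n) * ((X (n + 1) r + Z (n + 1) r) * (X n r - Z n r) ^ 2)) :=
        Finset.sum_nonneg fun n _ => mul_nonneg (by positivity)
          (mul_nonneg (cp β n).le (mul_nonneg (add_nonneg (hxr _) (hzr _)) (sq_nonneg _)))
      have h2 : 0 ≤ ν * ∑ n ∈ Finset.range (N + 1), (1 / 2 : ℝ) ^ n *
          (4 ^ n * (X n r - Z n r) ^ 2) :=
        mul_nonneg hν.le (Finset.sum_nonneg fun n _ => by positivity)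
      have h3 : -((1 / 2 : ℝ) ^ (N + 1) * ((2 : ℝ) ^ (β * N) *
          ((X N r ^ 2 - Z N r ^ 2) * (X (N + 1) r - Z (N + 1) r))))
          ≤ 1 / 2 * (4 ^ N * (√E * (X N r ^ 2 + Z N r ^ 2))) := by
        have e1 : (1 / 2 : ℝ) ^ (N + 1) * ((2 : ℝ) ^ (β * N) *
            ((X N r ^ 2 - Z N r ^ 2) * (X (N + 1) r - Z (N + 1) r)))
            = 1 / 2 * (((1 / 2 : ℝ) ^ N * (2 : ℝ) ^ (β * N)) *
              ((X N r ^ 2 - Z N r ^ 2) * (X (N + 1) r - Z (N + 1) r))) := by ring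
        have e2 : -((X N r ^ 2 - Z N r ^ 2) * (X (N + 1) r - Z (N + 1) r))
            ≤ √E * (X N r ^ 2 + Z N r ^ 2) := by
          nlinarith [mul_nonneg (sq_nonneg (X N r)) (hxr (N + 1)),
            mul_nonneg (sq_nonneg (Z N r)) (hzr (N + 1)),
            mul_le_mul_of_nonneg_left hzE (sq_nonneg (X N r)),
            mul_le_mul_of_nonneg_left hxE (sq_nonneg (Z N r))]
        have e3 : 0 ≤ (1 / 2 : ℝ) ^ N * (2 : ℝ) ^ (β * N) := mul_nonneg (by positivity) (cp β N).le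
        rw [e1, ← mul_neg, ← mul_neg]
        have e4 : 0 ≤ √E * (X N r ^ 2 + Z N r ^ 2) := by positivity
        have e5 : (1 / 2 : ℝ) ^ N * (2 : ℝ) ^ (β * N) *
            -((X N r ^ 2 - Z N r ^ 2) * (X (N + 1) r - Z (N + 1) r))
            ≤ (1 / 2 : ℝ) ^ N * (2 : ℝ) ^ (β * N) * (√E * (X N r ^ 2 + Z N r ^ 2)) :=
          mul_le_mul_of_nonneg_left e2 e3
        have e6 : (1 / 2 : ℝ) ^ N * (2 : ℝ) ^ (β * N) * (√E * (X N r ^ 2 + Z N r ^ 2))
            ≤ 4 ^ N * (√E * (X N r ^ 2 + Z N r ^ 2)) :=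
          mul_le_mul_of_nonneg_right (hrate N) e4
        linarith
      linarith
    rw [hint, h0, sub_zero, intervalIntegral.integral_const_mul,
      intervalIntegral.integral_add] at hle
    · exact hle
    · exact ContinuousOn.intervalIntegrable (by
        rw [uIcc_of_le ht]
        exact continuousOn_const.mul ((hcX N).pow 2))
    · exact ContinuousOn.intervalIntegrable (by
        rw [uIcc_of_le ht]
        exact continuousOn_const.mul ((hcZ N).pow 2))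
  have hlim : Tendsto (fun N : ℕ => √E * ((∫ s in (0 : ℝ)..t, 4 ^ N * X N s ^ 2)
      + ∫ s in (0 : ℝ)..t, 4 ^ N * Z N s ^ 2)) atTop (𝓝 0) := by
    have h1 := ((diss_tendsto hν hx2 hX hXn ht).add (diss_tendsto hν hx2 hZ hZn ht)).const_mul (√E)
    simpa using h1
  have h1 : (1 / 2 : ℝ) ^ n * (X n t - Z n t) ^ 2 ≤ 0 := by
    refine ge_of_tendsto hlim ?_
    filter_upwards [eventually_ge_atTop n] with N hN
    refine le_trans ?_ (key N)
    exact Finset.single_le_sum (f := fun k => (1 / 2 : ℝ) ^ k * (X k t - Z k t) ^ 2)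
      (fun k _ => by positivity) (Finset.mem_range.2 (Nat.lt_succ_of_le hN))
  have h2 : (0 : ℝ) < (1 / 2) ^ n := by positivity
  have h3 : (X n t - Z n t) ^ 2 ≤ 0 := by
    by_contra hc
    push Not at hc
    have := mul_pos h2 hc
    linarith
  have h4 : X n t - Z n t = 0 := by
    have := le_antisymm h3 (sq_nonneg _)
    exact pow_eq_zero_iff two_ne_zero |>.1 this
  linarith

/-! ### existence -/

theorem exist_l2 (β : ℝ) (hν : 0 < ν) (hx : ∀ n, 0 ≤ x n) (hx2 : Summable fun n => x n ^ 2) :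
    ∃ X : ℕ → ℝ → ℝ, IsDy β ν x X := by
  have hex : ∀ N : ℕ, ∃ Y : ℕ → ℝ → ℝ, Gal β ν ((N : ℝ) + 1) N x Y := fun N =>
    stmA β ν ((N : ℝ) + 1) N x hν (by positivity)
  choose Y hY using hex
  obtain ⟨M, hM⟩ : ∃ M : ℕ → ℝ, ∀ n, M n = √(∑' n, x n ^ 2) := ⟨fun _ => _, fun _ => rfl⟩
  have hYn : ∀ N : ℕ, ∀ t ∈ Icc (0 : ℝ) ((N : ℝ) + 1), ∀ n, 0 ≤ Y N n t := fun N t ht n =>
    gal_nn hx (hY N) t ht n
  have hYM : ∀ N : ℕ, ∀ t ∈ Icc (0 : ℝ) ((N : ℝ) + 1), ∀ n, Y N n t ≤ M n := by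
    intro N t ht n
    rcases le_or_gt n N with hn | hn
    · obtain ⟨-, h2⟩ := stmB β ν ((N : ℝ) + 1) N x (Y N) hν (by positivity) hx (hY N) t ht
      have h3 : 0 ≤ 2 * ν * ∫ s in (0 : ℝ)..t, ∑ n ∈ Finset.range (N + 1), 4 ^ n * Y N n s ^ 2 :=
        mul_nonneg (by positivity) (intervalIntegral.integral_nonneg ht.1 fun s _ =>
          Finset.sum_nonneg fun n _ => by positivity)
      have h4 : Y N n t ^ 2 ≤ ∑ k ∈ Finset.range (N + 1), Y N k t ^ 2 :=
        Finset.single_le_sum (f := fun k => Y N k t ^ 2) (fun k _ => sq_nonneg _)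
          (Finset.mem_range.2 (Nat.lt_succ_of_le hn))
      have h5 := sum_le_E hx2 (N + 1)
      rw [hM]
      apply Real.le_sqrt_of_sq_le
      linarith
    · rw [(hY N).zero n hn t, hM]
      exact Real.sqrt_nonneg _
  have hYa : ∀ N : ℕ, ∀ t ∈ Icc (0 : ℝ) ((N : ℝ) + 1), ∀ n, |Y N n t| ≤ M n := by
    intro N t ht n
    rw [abs_of_nonneg (hYn N t ht n)]
    exact hYM N t ht n
  set U : Ultrafilter ℕ := hyperfilter ℕ with hU
  have hUle : (U : Filter ℕ) ≤ atTop := Nat.hyperfilter_le_atTop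
  have hev : ∀ t : ℝ, 0 ≤ t → ∀ᶠ N : ℕ in U, t ∈ Icc (0 : ℝ) ((N : ℝ) + 1) := by
    intro t ht
    have h1 : ∀ᶠ N : ℕ in atTop, t ≤ (N : ℝ) := eventually_ge_atTop ⌈t⌉₊ |>.mono fun N hN =>
      (Nat.le_ceil t).trans (by exact_mod_cast hN)
    have h2 : ∀ᶠ N : ℕ in U, t ≤ (N : ℝ) := hUle h1
    exact h2.mono fun N hN => ⟨ht, by linarith⟩
  have hlim : ∀ (n : ℕ) (t : ℝ), ∃ l : ℝ, 0 ≤ t → Tendsto (fun N => Y N n t) U (𝓝 l) := by
    intro n t
    by_cases ht : 0 ≤ t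
    · have h1 : Icc 0 (M n) ∈ U.map fun N => Y N n t := by
        rw [Ultrafilter.mem_map]
        filter_upwards [hev t ht] with N hN
        exact ⟨hYn N t hN n, hYM N t hN n⟩
      obtain ⟨l, -, hl⟩ := isCompact_Icc.ultrafilter_le_nhds (U.map fun N => Y N n t)
        (le_principal_iff.2 h1)
      exact ⟨l, fun _ => hl⟩
    · exact ⟨0, fun h => absurd h ht⟩
  choose X hX using hlim
  have hrhs : ∀ (n : ℕ) (t : ℝ), 0 ≤ t →
      Tendsto (fun N => rhs β ν (fun k => Y N k t) n) U (𝓝 (rhs β ν (fun k => X k t) n)) := by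
    intro n t ht
    cases n with
    | zero =>
      simp only [rhs]
      exact (((hX 0 t ht).mul (hX 1 t ht)).neg).sub ((hX 0 t ht).const_mul ν)
    | succ n =>
      simp only [rhs]
      exact ((((hX n t ht).pow 2).const_mul _).sub
        (((hX (n + 1) t ht).mul (hX (n + 2) t ht)).const_mul _)).sub
        ((hX (n + 1) t ht).const_mul _)
  have htay : ∀ (n : ℕ) (t : ℝ), 0 ≤ t → ∀ r : ℝ, 0 ≤ r →
      |X n r - X n t - (r - t) * rhs β ν (fun k => X k t) n|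
        ≤ Lb β ν M (Rb β ν M) n * |r - t| ^ 2 := by
    intro n t ht r hr
    have h1 : Tendsto (fun N => |Y N n r - Y N n t - (r - t) * rhs β ν (fun k => Y N k t) n|) U
        (𝓝 |X n r - X n t - (r - t) * rhs β ν (fun k => X k t) n|) :=
      (((hX n r hr).sub (hX n t ht)).sub ((hrhs n t ht).const_mul _)).abs
    refine le_of_tendsto h1 ?_
    have h2 : ∀ᶠ N : ℕ in U, n + 1 ≤ N := hUle (eventually_ge_atTop (n + 1))
    filter_upwards [hev t ht, hev r hr, h2] with N hN1 hN2 hN3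
    exact gal_taylor hν (hY N) (hYa N) hN3 hN1 hN2
  have hd : ∀ (n : ℕ) (t : ℝ), 0 ≤ t →
      HasDerivWithinAt (X n) (rhs β ν (fun k => X k t) n) (Ici 0) t := fun n t ht =>
    hd_of_sq fun r hr => htay n t ht r hr
  refine ⟨X, ⟨?_, ?_, ?_⟩⟩
  · intro n
    refine tendsto_nhds_unique (hX n 0 le_rfl) ?_
    refine tendsto_const_nhds.congr' ?_
    have h2 : ∀ᶠ N : ℕ in U, n ≤ N := hUle (eventually_ge_atTop n)
    filter_upwards [h2] with N hN
    exact ((hY N).init n hN).symm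
  · exact fun n t ht => (hd n t ht).continuousWithinAt
  · exact fun n t ht => (hd n t ht.le).hasDerivAt (Ici_mem_nhds ht)

/-! ### regularisation -/

/-- there are times with finite enstrophy -/
lemma good_time (hν : 0 < ν) (hx2 : Summable fun n => x n ^ 2) (hX : IsDy β ν x X)
    (hXn : ∀ n t, 0 ≤ t → 0 ≤ X n t) {τ : ℝ} (hτ : 0 < τ) :
    ∃ t0 ∈ Ioo 0 τ, Tendsto (fun n : ℕ => (2 : ℝ) ^ n * X n t0) atTop (𝓝 0) := by
  set g : ℕ → ℝ → ENNReal := fun N t =>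
    ENNReal.ofReal (∑ n ∈ Finset.range (N + 1), (4 : ℝ) ^ n * X n t ^ 2) with hg
  have hc : ∀ k, ContinuousOn (X k) (Ioo 0 τ) := fun k =>
    (hX.cont k).mono (fun t ht => ht.1.le)
  have hc2 : ∀ N : ℕ, ContinuousOn (fun s => ∑ n ∈ Finset.range (N + 1), (4 : ℝ) ^ n * X n s ^ 2)
      (Ioo 0 τ) := fun N => continuousOn_finsetSum _ fun n _ => continuousOn_const.mul ((hc n).pow 2)
  have hmeas : ∀ N, AEMeasurable (g N) (volume.restrict (Ioo 0 τ)) := fun N =>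
    ((hc2 N).aemeasurable measurableSet_Ioo).ennreal_ofReal
  have hmono : ∀ᵐ t ∂(volume.restrict (Ioo 0 τ)), Monotone fun N => g N t := by
    refine Filter.Eventually.of_forall fun t => monotone_nat_of_le_succ fun N => ?_
    simp only [hg]
    apply ENNReal.ofReal_le_ofReal
    rw [Finset.sum_range_succ _ (N + 1)]
    have : 0 ≤ (4 : ℝ) ^ (N + 1) * X (N + 1) t ^ 2 := by positivity
    linarith
  have hint : ∀ N, ∫⁻ t in Ioo 0 τ, g N t ≤ ENNReal.ofReal ((∑' n, x n ^ 2) / (2 * ν)) := by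
    intro N
    have hcI : ContinuousOn (fun s => ∑ n ∈ Finset.range (N + 1), (4 : ℝ) ^ n * X n s ^ 2)
      (Icc 0 τ) := continuousOn_finsetSum _ fun n _ => continuousOn_const.mul
        (((hX.cont n).mono Icc_subset_Ici_self).pow 2)
    have hi : IntegrableOn (fun s => ∑ n ∈ Finset.range (N + 1), (4 : ℝ) ^ n * X n s ^ 2)
        (Ioo 0 τ) := (hcI.integrableOn_compact isCompact_Icc).mono_set Ioo_subset_Icc_self
    simp only [hg]
    rw [← ofReal_integral_eq_lintegral_ofReal hi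
      (Filter.Eventually.of_forall fun s => Finset.sum_nonneg fun n _ => by positivity)]
    apply ENNReal.ofReal_le_ofReal
    have h1 := diss_le hν hx2 hX hXn N hτ.le
    rw [intervalIntegral.integral_of_le hτ.le, integral_Ioc_eq_integral_Ioo] at h1
    exact h1
  have hsup : ∫⁻ t in Ioo 0 τ, ⨆ N, g N t ≤ ENNReal.ofReal ((∑' n, x n ^ 2) / (2 * ν)) := by
    rw [lintegral_iSup' hmeas hmono]
    exact iSup_le hint
  have hae : ∀ᵐ t ∂(volume.restrict (Ioo 0 τ)), (⨆ N, g N t) < ⊤ :=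
    ae_lt_top' (AEMeasurable.iSup hmeas) (ne_top_of_le_ne_top ENNReal.ofReal_ne_top hsup)
  have hae2 : ∀ᵐ t ∂(volume.restrict (Ioo 0 τ)), t ∈ Ioo 0 τ := ae_restrict_mem measurableSet_Ioo
  have hne : (ae (volume.restrict (Ioo (0 : ℝ) τ))).NeBot := by
    rw [ae_neBot, ne_eq, Measure.restrict_eq_zero, Real.volume_Ioo]
    simpa using hτ
  obtain ⟨t0, ht0, ht1⟩ := (hae.and hae2).exists
  refine ⟨t0, ht1, ?_⟩
  have hb : ∀ N : ℕ, ∑ n ∈ Finset.range N, (4 : ℝ) ^ n * X n t0 ^ 2 ≤ (⨆ N, g N t0).toReal := by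
    intro N
    refine (ENNReal.ofReal_le_iff_le_toReal ht0.ne).1 ?_
    refine le_trans ?_ (le_iSup (fun N => g N t0) N)
    apply ENNReal.ofReal_le_ofReal
    rw [Finset.sum_range_succ]
    have : 0 ≤ (4 : ℝ) ^ N * X N t0 ^ 2 := by positivity
    linarith
  have hs : Summable fun n : ℕ => (4 : ℝ) ^ n * X n t0 ^ 2 :=
    summable_of_sum_range_le (fun n => by positivity) hb
  have h1 := hs.tendsto_atTop_zero.sqrt
  rw [Real.sqrt_zero] at h1
  refine h1.congr fun n => ?_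
  have h2 : (4 : ℝ) ^ n * X n t0 ^ 2 = ((2 : ℝ) ^ n * X n t0) ^ 2 := by
    rw [mul_pow, ← pow_mul, mul_comm n 2, pow_mul]
    norm_num
  rw [h2, Real.sqrt_sq (mul_nonneg (by positivity) (hXn n t0 ht1.1.le))]

/-- the shifted solution -/
lemma shift (hX : IsDy β ν x X) {t0 : ℝ} (ht0 : 0 < t0) :
    IsDy β ν (fun n => X n t0) (fun n t => X n (t0 + t)) := by
  refine ⟨fun n => by simp, fun n => ?_, fun n t ht => ?_⟩
  · refine (hX.cont n).comp (by fun_prop) ?_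
    intro t ht
    have : 0 ≤ t := ht
    change 0 ≤ t0 + t
    linarith
  · exact (hX.ode n (t0 + t) (by linarith)).comp_const_add t0 t

/-- positivity on `[0, T]` with a constant damping -/
lemma nn_const {f f' : ℝ → ℝ} {a T : ℝ}
    (hd : ∀ r ∈ Icc 0 T, HasDerivWithinAt f (f' r) (Icc 0 T) r)
    (h : ∀ r ∈ Icc 0 T, -(a * f r) ≤ f' r) (h0 : 0 ≤ f 0) : ∀ t ∈ Icc 0 T, 0 ≤ f t :=
  nn_of_lin (g := fun r => f' r + a * f r) (a := fun _ => a)
    (fun r hr => (hd r hr).congr_deriv (by ring)) continuousOn_const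
    (fun r hr => by
      have := h r hr
      linarith) h0

/-- From data with `2^n x_n → 0` the solution decays like `4^{-n}` at small times. -/
lemma crit_smooth (hβ : β ≤ 3) (hν : 0 < ν) (hX : IsDy β ν x X) (hXn : ∀ n t, 0 ≤ t → 0 ≤ X n t)
    (hx0 : Tendsto (fun n : ℕ => (2 : ℝ) ^ n * x n) atTop (𝓝 0)) {h : ℝ} (hh : 0 < h)
    {E : ℝ} (hE : ∀ n t, 0 ≤ t → X n t ≤ E) :
    ∃ t1 ∈ Ioo 0 h, ∃ K : ℝ, ∀ n : ℕ, (4 : ℝ) ^ n * X n t1 ≤ K := by
  -- the first shell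
  obtain ⟨n0, hn0⟩ := (hx0.eventually (gt_mem_nhds (show (0 : ℝ) < ν / 2 by positivity))).exists_forall_of_atTop
  have hcn : ContinuousWithinAt (fun t => (2 : ℝ) ^ n0 * X n0 t) (Ici 0) 0 :=
    (continuousOn_const.mul (hX.cont n0)) 0 self_mem_Ici
  have hsmall : ∀ᶠ t in 𝓝[≥] (0 : ℝ), (2 : ℝ) ^ n0 * X n0 t < ν / 2 := by
    apply hcn.eventually (gt_mem_nhds ?_)
    change (2 : ℝ) ^ n0 * X n0 0 < ν / 2
    rw [hX.init n0]
    exact hn0 n0 le_rfl
  obtain ⟨u, hu0, hu⟩ := mem_nhdsGE_iff_exists_Icc_subset.1 hsmall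
  have hu0' : 0 < u := hu0
  obtain ⟨T, hT⟩ : ∃ T, T = min u (h / 2) := ⟨_, rfl⟩
  have hT0 : 0 < T := by rw [hT]; exact lt_min hu0' (by positivity)
  have hTu : T ≤ u := by rw [hT]; exact min_le_left _ _
  have hTh : T < h := by
    rw [hT]
    exact (min_le_right _ _).trans_lt (by linarith)
  -- the supersolution
  have key : ∀ m : ℕ, ∀ t ∈ Icc 0 T, (2 : ℝ) ^ (n0 + m) * X (n0 + m) t
      ≤ ν / 2 * ((1 / 2) ^ m + Real.exp (-(ν * 2 ^ m) * t)) := by
    intro m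
    induction m with
    | zero =>
      intro t ht
      have h1 : (2 : ℝ) ^ n0 * X n0 t < ν / 2 := hu ⟨ht.1, ht.2.trans hTu⟩
      have h2 : 0 ≤ ν / 2 * Real.exp (-(ν * 2 ^ 0) * t) := by positivity
      rw [add_zero, pow_zero (1 / 2 : ℝ), mul_add, mul_one]
      linarith
    | succ m ih =>
      obtain ⟨n, hn⟩ : ∃ n, n = n0 + m := ⟨_, rfl⟩
      rw [← hn] at ih
      rw [← add_assoc, ← hn]
      have hexp : ∀ r : ℝ, HasDerivAt (fun r => Real.exp (-(ν * 2 ^ (m + 1)) * r))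
          (Real.exp (-(ν * 2 ^ (m + 1)) * r) * (-(ν * 2 ^ (m + 1)) * 1)) r := fun r =>
        ((hasDerivAt_id r).const_mul _).exp
      have hd : ∀ r ∈ Icc 0 T, HasDerivWithinAt
          (fun r => ν / 2 * ((1 / 2) ^ (m + 1) + Real.exp (-(ν * 2 ^ (m + 1)) * r))
            - 2 ^ (n + 1) * X (n + 1) r)
          (ν / 2 * (Real.exp (-(ν * 2 ^ (m + 1)) * r) * (-(ν * 2 ^ (m + 1)) * 1))
            - 2 ^ (n + 1) * rhs β ν (fun k => X k r) (n + 1)) (Icc 0 T) r := by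
        intro r hr
        have h1 := (dy_dw' hX (n + 1) hr).const_mul ((2 : ℝ) ^ (n + 1))
        exact ((((hexp r).const_add _).const_mul (ν / 2)).hasDerivWithinAt).fun_sub h1
      have h3 := nn_const (a := ν * 4 ^ (n + 1)) hd ?_ ?_
      · intro t ht
        have := h3 t ht
        linarith
      · intro r hr
        have i1 := ih r hr
        have i2 := hXn n r hr.1
        have i3 : 0 ≤ (2 : ℝ) ^ (β * (n + 1)) * (X (n + 1) r * X (n + 2) r) :=
          mul_nonneg (cp β _).le (mul_nonneg (hXn _ r hr.1) (hXn _ r hr.1))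
        obtain ⟨e, he⟩ : ∃ e, e = Real.exp (-(ν * 2 ^ m) * r) := ⟨_, rfl⟩
        have he0 : 0 < e := he ▸ Real.exp_pos _
        have he2 : Real.exp (-(ν * 2 ^ (m + 1)) * r) = e ^ 2 := by
          rw [he, ← Real.exp_nat_mul]
          congr 1
          push_cast
          ring
        have j1 : (2 : ℝ) ^ (n + 1) * ((2 : ℝ) ^ (β * n) * X n r ^ 2)
            ≤ 2 * 4 ^ n * (2 ^ n * X n r) ^ 2 := by
          have g1 : (2 : ℝ) ^ (β * n) ≤ 2 ^ n * 4 ^ n := by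
            have g2 : (2 : ℝ) ^ n * 4 ^ n = (2 : ℝ) ^ (3 * (n : ℝ)) := by
              rw [Real.rpow_mul two_pos.le, Real.rpow_natCast, ← mul_pow]
              norm_num
            rw [g2]
            apply Real.rpow_le_rpow_of_exponent_le one_le_two
            gcongr
          calc (2 : ℝ) ^ (n + 1) * ((2 : ℝ) ^ (β * n) * X n r ^ 2)
              ≤ (2 : ℝ) ^ (n + 1) * ((2 ^ n * 4 ^ n) * X n r ^ 2) := by gcongr
            _ = _ := by ring
        have j2 : ((2 : ℝ) ^ n * X n r) ^ 2 ≤ (ν / 2 * ((1 / 2) ^ m + e)) ^ 2 := by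
          rw [← he] at i1
          have : 0 ≤ (2 : ℝ) ^ n * X n r := by positivity
          gcongr
        obtain ⟨p, hp⟩ : ∃ p : ℝ, p = (1 / 2) ^ m := ⟨_, rfl⟩
        have hp0 : 0 < p := by rw [hp]; positivity
        have hp1 : p ≤ 1 := by
          rw [hp]
          exact pow_le_one₀ (by norm_num) (by norm_num)
        have hpe : (1 / 2 : ℝ) ^ (m + 1) = p / 2 := by
          rw [hp, pow_succ]
          ring
        have j3 : (ν / 2 * (p + e)) ^ 2 ≤ ν ^ 2 / 2 * (p ^ 2 + e ^ 2) := by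
          nlinarith [sq_nonneg (p - e), sq_nonneg ν, mul_nonneg (sq_nonneg ν) (sq_nonneg (p - e))]
        have j4 : (2 : ℝ) ^ m ≤ 4 ^ n := by
          calc (2 : ℝ) ^ m ≤ 4 ^ m := by gcongr; norm_num
            _ ≤ 4 ^ n := pow_le_pow_right₀ (by norm_num) (by omega)
        rw [← hp] at j2
        rw [he2, hpe]
        simp only [rhs]
        have j5 : 2 * 4 ^ n * (2 ^ n * X n r) ^ 2 ≤ 2 * 4 ^ n * (ν ^ 2 / 2 * (p ^ 2 + e ^ 2)) := by
          have := j2.trans j3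
          gcongr
        -- the final inequality
        have j6 : 2 * 4 ^ n * (ν ^ 2 / 2 * (p ^ 2 + e ^ 2))
            ≤ ν / 2 * (e ^ 2 * (-(ν * 2 ^ (m + 1)) * 1))
              + ν * 4 ^ (n + 1) * (ν / 2 * (p / 2 + e ^ 2)) := by
          have k1 : ν ^ 2 * 4 ^ n * p ^ 2 ≤ ν ^ 2 * 4 ^ n * p := by
            have : p ^ 2 ≤ p := by nlinarith
            gcongr
          have k2 : ν ^ 2 * e ^ 2 * 2 ^ m ≤ ν ^ 2 * e ^ 2 * 4 ^ n := by gcongr
          have e1 : ν / 2 * (e ^ 2 * (-(ν * 2 ^ (m + 1)) * 1))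
              + ν * 4 ^ (n + 1) * (ν / 2 * (p / 2 + e ^ 2))
              = ν ^ 2 * 4 ^ n * p + 2 * (ν ^ 2 * e ^ 2 * 4 ^ n) - ν ^ 2 * e ^ 2 * 2 ^ m := by ring
          rw [e1]
          have e2 : 2 * 4 ^ n * (ν ^ 2 / 2 * (p ^ 2 + e ^ 2))
              = ν ^ 2 * 4 ^ n * p ^ 2 + ν ^ 2 * e ^ 2 * 4 ^ n := by ring
          rw [e2]
          linarith
        have j7 : 0 ≤ (2 : ℝ) ^ (n + 1) * ((2 : ℝ) ^ (β * (n + 1)) * (X (n + 1) r * X (n + 2) r)) :=
          mul_nonneg (by positivity) i3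
        linarith
      · simp only [mul_zero, Real.exp_zero]
        rw [hX.init (n + 1)]
        have h1 := hn0 (n + 1) (by omega)
        have h2 : 0 ≤ ν / 2 * (1 / 2) ^ (m + 1) := by positivity
        linarith
  -- the conclusion
  refine ⟨T, ⟨hT0, hTh⟩, 4 ^ n0 * |E| + 2 ^ n0 * (ν / 2 * (1 + 1 / (ν * T))), ?_⟩
  intro n
  have hq1 : 0 ≤ (4 : ℝ) ^ n0 * |E| := by positivity
  have hq2 : 0 ≤ (2 : ℝ) ^ n0 * (ν / 2 * (1 + 1 / (ν * T))) := by positivity
  rcases le_total n0 n with hn | hn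
  · obtain ⟨m, rfl⟩ := Nat.exists_eq_add_of_le hn
    have h1 := key m T ⟨hT0.le, le_rfl⟩
    have h2 : Real.exp (-(ν * 2 ^ m) * T) ≤ 1 / (ν * T) * (1 / 2) ^ m := by
      have h3 : 0 < ν * 2 ^ m * T := by positivity
      have h4 : ν * 2 ^ m * T ≤ Real.exp (ν * 2 ^ m * T) := by
        have := Real.add_one_le_exp (ν * 2 ^ m * T)
        linarith
      have h5 : Real.exp (-(ν * 2 ^ m) * T) = 1 / Real.exp (ν * 2 ^ m * T) := by
        rw [one_div, ← Real.exp_neg]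
        congr 1
        ring
      rw [h5]
      calc 1 / Real.exp (ν * 2 ^ m * T) ≤ 1 / (ν * 2 ^ m * T) := by gcongr
        _ = _ := by
          rw [one_div_pow]
          field_simp
    have h6 : (4 : ℝ) ^ (n0 + m) * X (n0 + m) T
        = 2 ^ n0 * (2 ^ m * ((2 : ℝ) ^ (n0 + m) * X (n0 + m) T)) := by
      rw [show (4 : ℝ) ^ (n0 + m) = 2 ^ (n0 + m) * 2 ^ (n0 + m) by
        rw [← mul_pow]; norm_num, pow_add (2 : ℝ) n0 m]
      ring
    have h7 : 2 ^ m * ((2 : ℝ) ^ (n0 + m) * X (n0 + m) T) ≤ ν / 2 * (1 + 1 / (ν * T)) := by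
      calc 2 ^ m * ((2 : ℝ) ^ (n0 + m) * X (n0 + m) T)
          ≤ 2 ^ m * (ν / 2 * ((1 / 2) ^ m + 1 / (ν * T) * (1 / 2) ^ m)) := by
            refine mul_le_mul_of_nonneg_left (h1.trans ?_) (by positivity)
            gcongr
        _ = ν / 2 * (1 + 1 / (ν * T)) := by
            rw [one_div_pow]
            field_simp
    rw [h6]
    have h8 := mul_le_mul_of_nonneg_left h7 (by positivity : (0 : ℝ) ≤ 2 ^ n0)
    linarith
  · have h1 : (4 : ℝ) ^ n ≤ 4 ^ n0 := pow_le_pow_right₀ (by norm_num) hn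
    have h2 : X n T ≤ |E| := (hE n T hT0.le).trans (le_abs_self E)
    have h3 := hXn n T hT0.le
    have h4 : (4 : ℝ) ^ n * X n T ≤ 4 ^ n0 * |E| := by gcongr
    linarith

/-- The dyadic Navier-Stokes equations are well posed for nonnegative square summable data and
regularising, for `β ≤ 3`. -/
theorem wp (hD : StmDyadic) (hβ : β ≤ 3) (hν : 0 < ν) (hx : ∀ n, 0 ≤ x n)
    (hx2 : Summable fun n => x n ^ 2) :
    ∃ X : ℕ → ℝ → ℝ, IsDy β ν x X ∧ (∀ Z, IsDy β ν x Z → ∀ n t, 0 ≤ t → Z n t = X n t) ∧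
      (∀ τ r : ℝ, 0 < τ → ∃ K, ∀ (n : ℕ) t, τ ≤ t → (2 : ℝ) ^ (r * n) * |X n t| ≤ K) ∧
      (∀ r : ℝ, β - 2 < r → (∃ K, ∀ n : ℕ, (2 : ℝ) ^ (r * n) * x n ≤ K) →
        ∃ K, ∀ (n : ℕ) t, 0 ≤ t → (2 : ℝ) ^ (r * n) * |X n t| ≤ K) := by
  obtain ⟨X, hX⟩ := exist_l2 β hν hx hx2
  have hXn := stmN β ν x X hν hx hX
  have huniq : ∀ Z, IsDy β ν x Z → ∀ n t, 0 ≤ t → Z n t = X n t := fun Z hZ =>
    unique_l2 hβ hν hx hx2 hX hZ
  refine ⟨X, hX, huniq, ?_, ?_⟩
  · intro τ r hτ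
    obtain ⟨t0, ht0, hlim⟩ := good_time hν hx2 hX hXn (half_pos hτ)
    have hsh := shift hX ht0.1
    obtain ⟨t1, ht1, K, hK⟩ := crit_smooth hβ hν hsh
      (fun n t ht => hXn n (t0 + t) (by linarith [ht0.1])) hlim (half_pos hτ)
      (E := √(∑' n, x n ^ 2)) (fun n t ht => le_sqrtE hν hx2 hX hXn n (by linarith [ht0.1]))
    have ht01 : 0 < t0 + t1 := by linarith [ht0.1, ht1.1]
    obtain ⟨Y, hY, hYu, -, hYs⟩ := hD β ν 2 (fun n => X n (t0 + t1)) hβ hν two_pos (by linarith)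
      (fun n => hXn n _ ht01.le) ⟨K, fun n => by
        have e : (2 : ℝ) ^ ((2 : ℝ) * n) = 4 ^ n := by
          rw [Real.rpow_mul two_pos.le, Real.rpow_natCast]
          norm_num
        rw [e]
        exact hK n⟩
    have h1 := hYu _ (shift hX ht01)
    obtain ⟨K', hK'⟩ := hYs (τ - (t0 + t1)) r (by linarith [ht0.2, ht1.2])
    refine ⟨K', fun n t ht => ?_⟩
    have h2 := h1 n (t - (t0 + t1)) (by linarith [ht0.2, ht1.2])
    rw [add_sub_cancel] at h2
    rw [h2]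
    exact hK' n (t - (t0 + t1)) (by linarith)
  · rintro r hr ⟨K, hK⟩
    rcases lt_or_ge 0 r with hr0 | hr0
    · obtain ⟨Y, hY, hYu, hYp, -⟩ := hD β ν r x hβ hν hr0 hr hx ⟨K, hK⟩
      obtain ⟨K', hK'⟩ := hYp r ⟨K, hK⟩
      refine ⟨K', fun n t ht => ?_⟩
      rw [hYu X hX n t ht]
      exact hK' n t ht
    · refine ⟨√(∑' n, x n ^ 2), fun n t ht => ?_⟩
      rw [abs_of_nonneg (hXn n t ht)]
      have h1 := le_sqrtE hν hx2 hX hXn n ht
      have h2 : (2 : ℝ) ^ (r * n) ≤ 1 := by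
        apply Real.rpow_le_one_of_one_le_of_nonpos one_le_two
        exact mul_nonpos_of_nonpos_of_nonneg hr0 (Nat.cast_nonneg n)
      calc (2 : ℝ) ^ (r * n) * X n t ≤ 1 * √(∑' n, x n ^ 2) := by
            have := hXn n t ht
            gcongr
        _ = _ := one_mul _

end Pool.Agent.Run7.h32.Dy
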