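import Pool.Agent.Run7.h32.Dy.Bas
import Pool.Agent.H772R2.NSR.Ode

/-!
The dyadic model: existence for the truncated systems (`StmA`).
-/

set_option autoImplicit false

open Set Filter Topology Metric
open scoped InnerProductSpace NNReal

namespace Pool.Agent.Run7.h32.Dy

open Run7.h969.Dy

/-- extension by zero -/
noncomputable def ext {N : ℕ} (v : EuclideanSpace ℝ (Fin (N + 1))) (n : ℕ) : ℝ :=
  if h : n < N + 1 then v ⟨n, h⟩ else 0

lemma ext_in {N : ℕ} (v : EuclideanSpace ℝ (Fin (N + 1))) {n : ℕ} (h : n < N + 1) :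
    ext v n = v ⟨n, h⟩ := dif_pos h

lemma ext_out {N : ℕ} (v : EuclideanSpace ℝ (Fin (N + 1))) {n : ℕ} (h : ¬ n < N + 1) :
    ext v n = 0 := dif_neg h

lemma ext_c {N : ℕ} (n : ℕ) :
    ContDiff ℝ 1 fun v : EuclideanSpace ℝ (Fin (N + 1)) => ext v n := by
  by_cases h : n < N + 1
  · have : (fun v : EuclideanSpace ℝ (Fin (N + 1)) => ext v n) = fun v => v ⟨n, h⟩ := by
      funext v
      exact ext_in v h
    rw [this]
    fun_prop
  · have : (fun v : EuclideanSpace ℝ (Fin (N + 1)) => ext v n) = fun _ => 0 := by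
      funext v
      exact ext_out v h
    rw [this]
    exact contDiff_const

lemma rhs_c {E : Type*} [NormedAddCommGroup E] [NormedSpace ℝ E] (β ν : ℝ) {X : E → ℕ → ℝ}
    (h : ∀ k, ContDiff ℝ 1 fun v => X v k) (n : ℕ) : ContDiff ℝ 1 fun v => rhs β ν (X v) n := by
  cases n with
  | zero =>
    simp only [rhs]
    exact (((h 0).mul (h 1)).neg).sub (contDiff_const.mul (h 0))
  | succ n =>
    simp only [rhs]
    exact ((contDiff_const.mul ((h n).pow 2)).sub
      (contDiff_const.mul ((h (n + 1)).mul (h (n + 2))))).sub (contDiff_const.mul (h (n + 1)))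

/-- the vector field of the truncated system -/
noncomputable def fld (β ν : ℝ) {N : ℕ} (v : EuclideanSpace ℝ (Fin (N + 1))) :
    EuclideanSpace ℝ (Fin (N + 1)) := WithLp.toLp 2 fun i => rhs β ν (ext v) i

lemma fld_c (β ν : ℝ) (N : ℕ) :
    ContDiff ℝ 1 (fld β ν : EuclideanSpace ℝ (Fin (N + 1)) → EuclideanSpace ℝ (Fin (N + 1))) := by
  rw [contDiff_euclidean]
  intro i
  exact rhs_c β ν (fun k => ext_c k) i

lemma fld_inner (β ν : ℝ) {N : ℕ} (hν : 0 < ν) (v : EuclideanSpace ℝ (Fin (N + 1))) :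
    ⟪fld β ν v, v⟫_ℝ ≤ 0 := by
  have h1 : ⟪fld β ν v, v⟫_ℝ = ∑ n ∈ Finset.range (N + 1), ext v n * rhs β ν (ext v) n := by
    rw [PiLp.inner_apply, Finset.sum_range]
    refine Finset.sum_congr rfl fun i _ => ?_
    rw [ext_in v i.2]
    simp only [fld, Fin.eta]
    rfl
  rw [h1, energy_sum, ext_out v (lt_irrefl (N + 1))]
  have : 0 ≤ ∑ n ∈ Finset.range (N + 1), (4 : ℝ) ^ n * ext v n ^ 2 :=
    Finset.sum_nonneg fun n _ => by positivity
  have h2 : 0 ≤ ν * ∑ n ∈ Finset.range (N + 1), (4 : ℝ) ^ n * ext v n ^ 2 := by positivity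
  linarith

theorem stmA : StmA := by
  intro β ν T N x hν hT
  have hlip : ∀ R : ℝ, ∃ C : ℝ≥0, ∀ t ∈ Icc 0 T, LipschitzOnWith C
      (fld β ν : EuclideanSpace ℝ (Fin (N + 1)) → EuclideanSpace ℝ (Fin (N + 1)))
      (closedBall 0 R) := by
    intro R
    obtain ⟨C, hC⟩ := ((fld_c β ν N).locallyLipschitz.locallyLipschitzOn
      (s := closedBall (0 : EuclideanSpace ℝ (Fin (N + 1))) R)).exists_lipschitzOnWith_of_compact
      (isCompact_closedBall _ _)
    exact ⟨C, fun t _ => hC⟩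
  obtain ⟨v, hv0, hv, -⟩ := H772R2.NSR.exists_global
    (fun _ : ℝ => (fld β ν : EuclideanSpace ℝ (Fin (N + 1)) → EuclideanSpace ℝ (Fin (N + 1))))
    hT.le hlip (fun _ => continuousOn_const)
    (WithLp.toLp 2 fun i : Fin (N + 1) => x i) le_rfl (fun t _ w => fld_inner β ν hν w)
  refine ⟨fun n t => ext (v t) n, ?_, ?_, ?_⟩
  · intro n hn
    change ext (v 0) n = x n
    rw [hv0, ext_in _ (Nat.lt_succ_of_le hn)]
  · intro n hn t
    exact ext_out _ (by omega)
  · intro n hn t ht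
    have hn' : n < N + 1 := Nat.lt_succ_of_le hn
    have h1 : HasDerivWithinAt (fun t => v t ⟨n, hn'⟩) (fld β ν (v t) ⟨n, hn'⟩) (Icc 0 T) t :=
      ((EuclideanSpace.proj (𝕜 := ℝ) (⟨n, hn'⟩ : Fin (N + 1))).hasFDerivAt).comp_hasDerivWithinAt t
        (hv t ht)
    have h2 : (fun t => ext (v t) n) = fun t => v t ⟨n, hn'⟩ := by
      funext t
      exact ext_in _ hn'
    rw [h2]
    exact h1

end Pool.Agent.Run7.h32.Dy
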