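import Pool.Agent.Run7.h32.Dy.Bas

/-!
The dyadic model: positivity and energy (`StmB`, `StmN`).
-/

set_option autoImplicit false

open Set Filter Topology MeasureTheory

namespace Pool.Agent.Run7.h32.Dy

open Run7.h969.Dy

variable {β ν T : ℝ} {N : ℕ} {x : ℕ → ℝ} {X : ℕ → ℝ → ℝ}

lemma gal_cont (h : Gal β ν T N x X) (n : ℕ) : ContinuousOn (X n) (Icc 0 T) := by
  rcases le_or_gt n N with hn | hn
  · exact fun t ht => (h.ode n hn t ht).continuousWithinAt
  · have : X n = fun _ => 0 := by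
      funext t
      exact h.zero n hn t
    rw [this]
    exact continuousOn_const

lemma rhs_cont {S : Set ℝ} (hc : ∀ n, ContinuousOn (X n) S) (n : ℕ) :
    ContinuousOn (fun t => rhs β ν (fun k => X k t) n) S := by
  cases n with
  | zero =>
    simp only [rhs]
    exact (((hc 0).mul (hc 1)).neg).sub (continuousOn_const.mul (hc 0))
  | succ n =>
    simp only [rhs]
    exact ((continuousOn_const.mul ((hc n).pow 2)).sub
      (continuousOn_const.mul ((hc (n + 1)).mul (hc (n + 2))))).sub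
      (continuousOn_const.mul (hc (n + 1)))

lemma nn_zero (hc : ∀ n, ContinuousOn (X n) (Icc 0 T)) (h0 : 0 ≤ X 0 0)
    (hd : ∀ t ∈ Icc 0 T, HasDerivWithinAt (X 0) (rhs β ν (fun k => X k t) 0) (Icc 0 T) t) :
    ∀ t ∈ Icc 0 T, 0 ≤ X 0 t := by
  refine nn_of_lin (g := fun _ => 0) (a := fun t => X 1 t + ν) (fun t ht => ?_)
    ((hc 1).add continuousOn_const) (fun _ _ => le_rfl) h0
  refine (hd t ht).congr_deriv ?_
  simp only [rhs]
  ring

lemma nn_succ (hc : ∀ n, ContinuousOn (X n) (Icc 0 T)) (n : ℕ) (h0 : 0 ≤ X (n + 1) 0)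
    (hd : ∀ t ∈ Icc 0 T, HasDerivWithinAt (X (n + 1)) (rhs β ν (fun k => X k t) (n + 1))
      (Icc 0 T) t) :
    ∀ t ∈ Icc 0 T, 0 ≤ X (n + 1) t := by
  refine nn_of_lin (g := fun t => (2 : ℝ) ^ (β * n) * X n t ^ 2)
    (a := fun t => (2 : ℝ) ^ (β * (n + 1)) * X (n + 2) t + ν * 4 ^ (n + 1)) (fun t ht => ?_)
    ((continuousOn_const.mul (hc (n + 2))).add continuousOn_const)
    (fun t _ => mul_nonneg (cp β n).le (sq_nonneg _)) h0
  refine (hd t ht).congr_deriv ?_
  simp only [rhs]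
  ring

lemma gal_nn (hx : ∀ n, 0 ≤ x n) (h : Gal β ν T N x X) :
    ∀ t ∈ Icc 0 T, ∀ n, 0 ≤ X n t := by
  intro t ht n
  rcases le_or_gt n N with hn | hn
  · cases n with
    | zero => exact nn_zero (gal_cont h) (by rw [h.init 0 hn]; exact hx 0) (h.ode 0 hn) t ht
    | succ n => exact nn_succ (gal_cont h) n (by rw [h.init _ hn]; exact hx _) (h.ode _ hn) t ht
  · rw [h.zero n hn t]

/-- the energy of the shells `n ≤ M` -/
lemma energy_hd {S : Set ℝ} {t : ℝ} (M : ℕ)
    (hd : ∀ n ≤ M, HasDerivWithinAt (X n) (rhs β ν (fun k => X k t) n) S t) :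
    HasDerivWithinAt (fun s => ∑ n ∈ Finset.range (M + 1), X n s ^ 2)
      (-2 * ((2 : ℝ) ^ (β * M) * (X M t ^ 2 * X (M + 1) t))
        - 2 * ν * ∑ n ∈ Finset.range (M + 1), 4 ^ n * X n t ^ 2) S t := by
  have h1 : HasDerivWithinAt (fun s => ∑ n ∈ Finset.range (M + 1), X n s ^ 2)
      (∑ n ∈ Finset.range (M + 1), 2 * (X n t * rhs β ν (fun k => X k t) n)) S t := by
    refine HasDerivWithinAt.fun_sum fun n hn => ?_
    have := (hd n (Nat.lt_succ_iff.1 (Finset.mem_range.1 hn))).fun_pow 2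
    refine this.congr_deriv ?_
    norm_num
    ring
  refine h1.congr_deriv ?_
  rw [← Finset.mul_sum, energy_sum β ν (fun k => X k t) M]
  ring

theorem stmB : StmB := by
  intro β ν T N x X _ _ hx h t ht
  refine ⟨gal_nn hx h t ht, ?_⟩
  have hsub : Icc 0 t ⊆ Icc 0 T := Icc_subset_Icc_right ht.2
  have hc := gal_cont h
  have hE : ∀ s ∈ Icc 0 T, HasDerivWithinAt (fun s => ∑ n ∈ Finset.range (N + 1), X n s ^ 2)
      (-(2 * ν * ∑ n ∈ Finset.range (N + 1), 4 ^ n * X n s ^ 2)) (Icc 0 T) s := by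
    intro s hs
    refine (energy_hd N fun n hn => h.ode n hn s hs).congr_deriv ?_
    rw [h.zero (N + 1) (Nat.lt_succ_self N) s]
    ring
  have hi : ContinuousOn (fun s => ∑ n ∈ Finset.range (N + 1), 4 ^ n * X n s ^ 2) (Icc 0 T) :=
    continuousOn_finsetSum _ fun n _ => continuousOn_const.mul ((hc n).pow 2)
  have h1 : ∫ s in (0 : ℝ)..t, -(2 * ν * ∑ n ∈ Finset.range (N + 1), 4 ^ n * X n s ^ 2)
      = ∑ n ∈ Finset.range (N + 1), X n t ^ 2 - ∑ n ∈ Finset.range (N + 1), X n 0 ^ 2 := by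
    refine intervalIntegral.integral_eq_sub_of_hasDerivAt_of_le ht.1
      (f := fun s => ∑ n ∈ Finset.range (N + 1), X n s ^ 2) ?_ ?_ ?_
    · exact fun s hs => ((hE s (hsub hs)).mono hsub).continuousWithinAt
    · intro s hs
      exact (hE s ⟨hs.1.le, hs.2.le.trans ht.2⟩).hasDerivAt
        (Icc_mem_nhds hs.1 (hs.2.trans_le ht.2))
    · refine ContinuousOn.intervalIntegrable ?_
      rw [uIcc_of_le ht.1]
      exact ((continuousOn_const.mul hi).neg).mono hsub
  have h2 : ∑ n ∈ Finset.range (N + 1), X n 0 ^ 2 = ∑ n ∈ Finset.range (N + 1), x n ^ 2 :=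
    Finset.sum_congr rfl fun n hn => by rw [h.init n (Nat.lt_succ_iff.1 (Finset.mem_range.1 hn))]
  rw [intervalIntegral.integral_neg, intervalIntegral.integral_const_mul, h2] at h1
  linarith

/-! ### the infinite system -/

lemma dy_dw (h : IsDy β ν x X) (n : ℕ) {t : ℝ} (ht : 0 ≤ t) :
    HasDerivWithinAt (X n) (rhs β ν (fun k => X k t) n) (Ici 0) t := by
  rcases ht.eq_or_lt with rfl | ht
  · refine hasDerivWithinAt_Ici_of_tendsto_deriv (s := Ioi 0)
      (fun t ht => (h.ode n t ht).differentiableAt.differentiableWithinAt)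
      ((h.cont n 0 self_mem_Ici).mono Ioi_subset_Ici_self) self_mem_nhdsWithin ?_
    have h1 : Tendsto (fun t => rhs β ν (fun k => X k t) n) (𝓝[>] 0)
        (𝓝 (rhs β ν (fun k => X k 0) n)) :=
      ((rhs_cont h.cont n) 0 self_mem_Ici).mono_left (nhdsWithin_mono _ Ioi_subset_Ici_self)
    refine h1.congr' ?_
    filter_upwards [self_mem_nhdsWithin] with t ht
    exact ((h.ode n t ht).deriv).symm
  · exact (h.ode n t ht).hasDerivWithinAt

lemma dy_dw' (h : IsDy β ν x X) (n : ℕ) {T t : ℝ} (ht : t ∈ Icc 0 T) :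
    HasDerivWithinAt (X n) (rhs β ν (fun k => X k t) n) (Icc 0 T) t :=
  (dy_dw h n ht.1).mono Icc_subset_Ici_self

theorem stmN : StmN := by
  intro β ν x X _ hx h n t ht
  have hc : ∀ n, ContinuousOn (X n) (Icc 0 t) := fun n => (h.cont n).mono Icc_subset_Ici_self
  cases n with
  | zero =>
    exact nn_zero hc (by rw [h.init 0]; exact hx 0) (fun s hs => dy_dw' h 0 hs) t ⟨ht, le_rfl⟩
  | succ n =>
    exact nn_succ hc n (by rw [h.init _]; exact hx _) (fun s hs => dy_dw' h _ hs) t ⟨ht, le_rfl⟩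

end Pool.Agent.Run7.h32.Dy
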