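import Pool.Agent.Run7.h969.Dy.Defs

/-!
The dyadic model: basic lemmas.
-/

set_option autoImplicit false

open Set Filter Topology

namespace Pool.Agent.Run7.h32.Dy

open Run7.h969.Dy

lemma cp (β : ℝ) (n : ℝ) : (0 : ℝ) < 2 ^ (β * n) := Real.rpow_pos_of_pos two_pos _

/-- the energy identity -/
lemma energy_sum (β ν : ℝ) (x : ℕ → ℝ) (N : ℕ) :
    ∑ n ∈ Finset.range (N + 1), x n * rhs β ν x n
      = -((2 : ℝ) ^ (β * N) * (x N ^ 2 * x (N + 1)))
        - ν * ∑ n ∈ Finset.range (N + 1), 4 ^ n * x n ^ 2 := by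
  induction N with
  | zero =>
    simp only [zero_add, Finset.sum_range_one, rhs, Nat.cast_zero, mul_zero, Real.rpow_zero,
      pow_zero]
    ring
  | succ N ih =>
    rw [Finset.sum_range_succ, ih, Finset.sum_range_succ (fun n => (4 : ℝ) ^ n * x n ^ 2) (N + 1)]
    simp only [rhs]
    push_cast
    ring

/-- a function with `f' ≥ K f` where it is negative stays nonnegative -/
lemma nn_of {f f' : ℝ → ℝ} {T K : ℝ} (hc : ContinuousOn f (Icc 0 T))
    (hd : ∀ t ∈ Ico 0 T, HasDerivWithinAt f (f' t) (Ici t) t) (h0 : 0 ≤ f 0)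
    (h : ∀ t ∈ Ico 0 T, f t < 0 → K * f t ≤ f' t) : ∀ t ∈ Icc 0 T, 0 ≤ f t := by
  intro t ht
  have key : ∀ ε : ℝ, 0 < ε → -f t ≤ ε * Real.exp ((K + 1) * t) := by
    intro ε hε
    have hB : ∀ s : ℝ, HasDerivAt (fun s => ε * Real.exp ((K + 1) * s))
        (ε * (Real.exp ((K + 1) * s) * ((K + 1) * 1))) s := fun s =>
      (((hasDerivAt_id s).const_mul (K + 1)).exp).const_mul ε
    refine image_le_of_deriv_right_lt_deriv_boundary' (f := fun s => -f s) (f' := fun s => -f' s)
      (a := 0) (b := T) hc.neg (fun s hs => (hd s hs).neg)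
      (B := fun s => ε * Real.exp ((K + 1) * s))
      (B' := fun s => ε * (Real.exp ((K + 1) * s) * ((K + 1) * 1))) ?_
      (fun s _ => (hB s).continuousAt.continuousWithinAt)
      (fun s _ => (hB s).hasDerivWithinAt) ?_ ht
    · simp only [mul_zero, Real.exp_zero, mul_one]
      linarith
    · intro s hs he
      have hp : 0 < ε * Real.exp ((K + 1) * s) := by positivity
      have h1 : f s < 0 := by
        have : -f s = ε * Real.exp ((K + 1) * s) := he
        linarith
      have h2 := h s hs h1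
      have h3 : -f s = ε * Real.exp ((K + 1) * s) := he
      have h4 : -f' s ≤ K * (ε * Real.exp ((K + 1) * s)) := by
        rw [← h3]
        linarith
      calc -f' s ≤ K * (ε * Real.exp ((K + 1) * s)) := h4
        _ < (K + 1) * (ε * Real.exp ((K + 1) * s)) := by
            have : K < K + 1 := by linarith
            exact mul_lt_mul_of_pos_right this hp
        _ = ε * (Real.exp ((K + 1) * s) * ((K + 1) * 1)) := by ring
  by_contra hc2
  push Not at hc2
  have h1 := key (-f t / (2 * Real.exp ((K + 1) * t))) (div_pos (by linarith) (by positivity))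
  have h2 : -f t / (2 * Real.exp ((K + 1) * t)) * Real.exp ((K + 1) * t) = -f t / 2 := by
    have : Real.exp ((K + 1) * t) ≠ 0 := (Real.exp_pos _).ne'
    field_simp
  rw [h2] at h1
  linarith

/-- positivity for an equation `f' = g - a f` with `g ≥ 0` -/
lemma nn_of_lin {f g a : ℝ → ℝ} {T : ℝ}
    (hd : ∀ t ∈ Icc 0 T, HasDerivWithinAt f (g t - a t * f t) (Icc 0 T) t)
    (ha : ContinuousOn a (Icc 0 T)) (hg : ∀ t ∈ Icc 0 T, 0 ≤ g t) (h0 : 0 ≤ f 0) :
    ∀ t ∈ Icc 0 T, 0 ≤ f t := by
  obtain ⟨K, hK⟩ := isCompact_Icc.exists_bound_of_continuousOn ha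
  refine nn_of (K := |K|) (f' := fun t => g t - a t * f t)
    (fun t ht => (hd t ht).continuousWithinAt) ?_ h0 ?_
  · intro t ht
    exact (hd t (Ico_subset_Icc_self ht)).mono_of_mem_nhdsWithin
      (mem_of_superset (Icc_mem_nhdsGE ht.2) (Icc_subset_Icc_left ht.1))
  · intro t ht hf
    have h1 := hK t (Ico_subset_Icc_self ht)
    have h2 := hg t (Ico_subset_Icc_self ht)
    rw [Real.norm_eq_abs] at h1
    have h3 : -|K| ≤ a t := by
      have := neg_abs_le (a t)
      have := le_abs_self K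
      linarith
    nlinarith

end Pool.Agent.Run7.h32.Dy
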