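import Pool.Agent.Run7.h32.Dy.A
import Pool.Agent.Run7.h32.Dy.B

/-!
The dyadic model: the limit of the truncated systems (`StmE`), along an ultrafilter.
-/

set_option autoImplicit false

open Set Filter Topology MeasureTheory Asymptotics

namespace Pool.Agent.Run7.h32.Dy

open Run7.h969.Dy

/-- the bound of the right hand side -/
noncomputable def Rb (β ν : ℝ) (M : ℕ → ℝ) : ℕ → ℝ
  | 0 => M 0 * M 1 + ν * M 0
  | n + 1 => (2 : ℝ) ^ (β * n) * M n ^ 2 + (2 : ℝ) ^ (β * (n + 1)) * (M (n + 1) * M (n + 2))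
      + ν * 4 ^ (n + 1) * M (n + 1)

/-- the Lipschitz constant of the right hand side along a path with the speed `R` -/
noncomputable def Lb (β ν : ℝ) (M R : ℕ → ℝ) : ℕ → ℝ
  | 0 => M 0 * R 1 + R 0 * M 1 + ν * R 0
  | n + 1 => (2 : ℝ) ^ (β * n) * (2 * M n * R n)
      + (2 : ℝ) ^ (β * (n + 1)) * (M (n + 1) * R (n + 2) + R (n + 1) * M (n + 2))
      + ν * 4 ^ (n + 1) * R (n + 1)

lemma mul_bd {a b A B : ℝ} (ha : |a| ≤ A) (hb : |b| ≤ B) : |a * b| ≤ A * B := by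
  rw [abs_mul]
  exact mul_le_mul ha hb (abs_nonneg _) ((abs_nonneg _).trans ha)

lemma rhs_bd {β ν : ℝ} (hν : 0 < ν) {x M : ℕ → ℝ} (h : ∀ k, |x k| ≤ M k) (n : ℕ) :
    |rhs β ν x n| ≤ Rb β ν M n := by
  cases n with
  | zero =>
    simp only [rhs, Rb]
    have h1 := mul_bd (h 0) (h 1)
    have h2 : |ν * x 0| ≤ ν * M 0 := by
      rw [abs_mul, abs_of_pos hν]
      exact mul_le_mul_of_nonneg_left (h 0) hν.le
    calc |-(x 0 * x 1) - ν * x 0| ≤ |-(x 0 * x 1)| + |ν * x 0| := abs_sub _ _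
      _ ≤ _ := by
        rw [abs_neg]
        exact add_le_add h1 h2
  | succ n =>
    simp only [rhs, Rb]
    have h1 : |(2 : ℝ) ^ (β * n) * x n ^ 2| ≤ (2 : ℝ) ^ (β * n) * M n ^ 2 := by
      rw [abs_mul, abs_of_pos (cp β n), sq, sq]
      exact mul_le_mul_of_nonneg_left (mul_bd (h n) (h n)) (cp β n).le
    have h2 : |(2 : ℝ) ^ (β * (n + 1)) * (x (n + 1) * x (n + 2))|
        ≤ (2 : ℝ) ^ (β * (n + 1)) * (M (n + 1) * M (n + 2)) := by
      rw [abs_mul, abs_of_pos (cp β _)]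
      exact mul_le_mul_of_nonneg_left (mul_bd (h _) (h _)) (cp β _).le
    have h3 : |ν * 4 ^ (n + 1) * x (n + 1)| ≤ ν * 4 ^ (n + 1) * M (n + 1) := by
      rw [abs_mul, abs_of_pos (by positivity : (0 : ℝ) < ν * 4 ^ (n + 1))]
      exact mul_le_mul_of_nonneg_left (h _) (by positivity)
    refine (abs_sub _ _).trans (add_le_add ((abs_sub _ _).trans (add_le_add h1 h2)) h3)

lemma prod_diff {a b c d A B D1 D2 : ℝ} (ha : |a| ≤ A) (hd : |d| ≤ B) (h1 : |b - d| ≤ D1)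
    (h2 : |a - c| ≤ D2) : |a * b - c * d| ≤ A * D1 + D2 * B := by
  have e : a * b - c * d = a * (b - d) + (a - c) * d := by ring
  rw [e]
  exact (abs_add_le _ _).trans (add_le_add (mul_bd ha h1) (mul_bd h2 hd))

lemma rhs_lip {β ν : ℝ} (hν : 0 < ν) {x y M R : ℕ → ℝ} {δ : ℝ} (hx : ∀ k, |x k| ≤ M k)
    (hy : ∀ k, |y k| ≤ M k) (n : ℕ) (hR : ∀ k ≤ n + 1, |x k - y k| ≤ R k * δ) :
    |rhs β ν x n - rhs β ν y n| ≤ Lb β ν M R n * δ := by
  cases n with
  | zero =>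
    simp only [rhs, Lb]
    have h1 := prod_diff (hx 0) (hy 1) (hR 1 le_rfl) (hR 0 (Nat.zero_le _))
    have h2 : |ν * (x 0 - y 0)| ≤ ν * (R 0 * δ) := by
      rw [abs_mul, abs_of_pos hν]
      exact mul_le_mul_of_nonneg_left (hR 0 (Nat.zero_le _)) hν.le
    have e : -(x 0 * x 1) - ν * x 0 - (-(y 0 * y 1) - ν * y 0)
        = -(x 0 * x 1 - y 0 * y 1) - ν * (x 0 - y 0) := by ring
    rw [e]
    calc |-(x 0 * x 1 - y 0 * y 1) - ν * (x 0 - y 0)|
        ≤ |-(x 0 * x 1 - y 0 * y 1)| + |ν * (x 0 - y 0)| := abs_sub _ _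
      _ ≤ (M 0 * (R 1 * δ) + R 0 * δ * M 1) + ν * (R 0 * δ) := by
        rw [abs_neg]
        exact add_le_add h1 h2
      _ = _ := by ring
  | succ n =>
    simp only [rhs, Lb]
    have h1 := prod_diff (hx n) (hy n) (hR n (by omega)) (hR n (by omega))
    have h2 := prod_diff (hx (n + 1)) (hy (n + 2)) (hR (n + 2) le_rfl) (hR (n + 1) (by omega))
    have h3 := hR (n + 1) (by omega)
    have e : (2 : ℝ) ^ (β * n) * x n ^ 2 - (2 : ℝ) ^ (β * (n + 1)) * (x (n + 1) * x (n + 2))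
        - ν * 4 ^ (n + 1) * x (n + 1)
        - ((2 : ℝ) ^ (β * n) * y n ^ 2 - (2 : ℝ) ^ (β * (n + 1)) * (y (n + 1) * y (n + 2))
        - ν * 4 ^ (n + 1) * y (n + 1))
        = (2 : ℝ) ^ (β * n) * (x n * x n - y n * y n)
          - (2 : ℝ) ^ (β * (n + 1)) * (x (n + 1) * x (n + 2) - y (n + 1) * y (n + 2))
          - ν * 4 ^ (n + 1) * (x (n + 1) - y (n + 1)) := by ring
    rw [e]
    have a1 : |(2 : ℝ) ^ (β * n) * (x n * x n - y n * y n)|
        ≤ (2 : ℝ) ^ (β * n) * (M n * (R n * δ) + R n * δ * M n) := by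
      rw [abs_mul, abs_of_pos (cp β n)]
      exact mul_le_mul_of_nonneg_left h1 (cp β n).le
    have a2 : |(2 : ℝ) ^ (β * (n + 1)) * (x (n + 1) * x (n + 2) - y (n + 1) * y (n + 2))|
        ≤ (2 : ℝ) ^ (β * (n + 1)) * (M (n + 1) * (R (n + 2) * δ) + R (n + 1) * δ * M (n + 2)) := by
      rw [abs_mul, abs_of_pos (cp β _)]
      exact mul_le_mul_of_nonneg_left h2 (cp β _).le
    have a3 : |ν * 4 ^ (n + 1) * (x (n + 1) - y (n + 1))| ≤ ν * 4 ^ (n + 1) * (R (n + 1) * δ) := by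
      rw [abs_mul, abs_of_pos (by positivity : (0 : ℝ) < ν * 4 ^ (n + 1))]
      exact mul_le_mul_of_nonneg_left h3 (by positivity)
    refine ((abs_sub _ _).trans (add_le_add ((abs_sub _ _).trans (add_le_add a1 a2)) a3)).trans
      (le_of_eq ?_)
    ring

/-- a second order bound gives the derivative -/
lemma hd_of_sq {f : ℝ → ℝ} {a t L : ℝ} {S : Set ℝ}
    (h : ∀ r ∈ S, |f r - f t - (r - t) * a| ≤ L * |r - t| ^ 2) : HasDerivWithinAt f a S t := by
  rw [hasDerivWithinAt_iff_isLittleO]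
  have h1 : (fun r => f r - f t - (r - t) • a) =O[𝓝[S] t] fun r => (r - t) ^ 2 := by
    refine IsBigO.of_bound L ?_
    filter_upwards [self_mem_nhdsWithin] with r hr
    rw [Real.norm_eq_abs, Real.norm_eq_abs, smul_eq_mul, abs_pow]
    exact h r hr
  refine h1.trans_isLittleO ?_
  have h2 : (fun r : ℝ => (r - t) * (r - t)) =o[𝓝[S] t] fun r => 1 * (r - t) := by
    refine IsLittleO.mul_isBigO ?_ (isBigO_refl _ _)
    rw [isLittleO_one_iff]
    have h3 : Tendsto (fun r : ℝ => r - t) (𝓝 t) (𝓝 (t - t)) := tendsto_id.sub_const t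
    rw [sub_self] at h3
    exact h3.mono_left nhdsWithin_le_nhds
  simpa [sq] using h2

variable {β ν T : ℝ} {N : ℕ} {x : ℕ → ℝ} {X : ℕ → ℝ → ℝ}

/-- the second order expansion of the solutions of the truncated systems -/
lemma gal_taylor (hν : 0 < ν) (h : Gal β ν T N x X) {M : ℕ → ℝ}
    (hM : ∀ t ∈ Icc 0 T, ∀ k, |X k t| ≤ M k) {n : ℕ} (hn : n + 1 ≤ N) {t r : ℝ}
    (ht : t ∈ Icc 0 T) (hr : r ∈ Icc 0 T) :
    |X n r - X n t - (r - t) * rhs β ν (fun k => X k t) n| ≤ Lb β ν M (Rb β ν M) n * |r - t| ^ 2 := by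
  have hsub : uIcc t r ⊆ Icc 0 T := uIcc_subset_Icc ht hr
  -- first order
  have h1 : ∀ k ≤ N, ∀ a ∈ Icc 0 T, ∀ b ∈ Icc 0 T, |X k a - X k b| ≤ Rb β ν M k * |a - b| := by
    intro k hk a ha b hb
    have := Convex.norm_image_sub_le_of_norm_hasDerivWithin_le (f := X k)
      (f' := fun t => rhs β ν (fun k => X k t) k) (C := Rb β ν M k) (s := Icc 0 T) (x := b) (y := a)
      (fun t ht => h.ode k hk t ht) (fun t ht => rhs_bd hν (hM t ht) k) (convex_Icc 0 T) hb ha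
    rwa [Real.norm_eq_abs, Real.norm_eq_abs] at this
  -- second order
  have h2 := Convex.norm_image_sub_le_of_norm_hasDerivWithin_le
    (f := fun q => X n q - q * rhs β ν (fun k => X k t) n)
    (f' := fun q => rhs β ν (fun k => X k q) n - 1 * rhs β ν (fun k => X k t) n)
    (C := Lb β ν M (Rb β ν M) n * |r - t|) (s := uIcc t r) (x := t) (y := r) ?_ ?_
    (convex_uIcc t r) left_mem_uIcc right_mem_uIcc
  · rw [Real.norm_eq_abs, Real.norm_eq_abs] at h2
    have e : X n r - r * rhs β ν (fun k => X k t) n - (X n t - t * rhs β ν (fun k => X k t) n)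
        = X n r - X n t - (r - t) * rhs β ν (fun k => X k t) n := by ring
    rw [e] at h2
    refine h2.trans (le_of_eq ?_)
    ring
  · intro q hq
    exact ((h.ode n (by omega) q (hsub hq)).mono hsub).fun_sub
      ((hasDerivWithinAt_id q _).mul_const _)
  · intro q hq
    rw [Real.norm_eq_abs, one_mul]
    have h3 := rhs_lip (β := β) hν (hM q (hsub hq)) (hM t ht) n (R := Rb β ν M) (δ := |q - t|)
      (fun k hk => h1 k (by omega) q (hsub hq) t ht)
    refine h3.trans ?_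
    have h4 : |q - t| ≤ |r - t| := abs_sub_left_of_mem_uIcc hq
    have h5 : 0 ≤ Lb β ν M (Rb β ν M) n := by
      have hM0 : ∀ k, 0 ≤ M k := fun k => (abs_nonneg _).trans (hM t ht k)
      have hR0 : ∀ k, 0 ≤ Rb β ν M k := fun k => (abs_nonneg _).trans (rhs_bd hν (hM t ht) k)
      cases n with
      | zero =>
        simp only [Lb]
        have := hM0 0
        have := hM0 1
        have := hR0 0
        have := hR0 1
        positivity
      | succ n =>
        simp only [Lb]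
        have a1 := hM0 n
        have a2 := hM0 (n + 1)
        have a3 := hM0 (n + 2)
        have a4 := hR0 n
        have a5 := hR0 (n + 1)
        have a6 := hR0 (n + 2)
        have a7 := (cp β n).le
        have a8 := (cp β (n + 1)).le
        positivity
    gcongr

theorem stmE : StmE := by
  intro β ν s C x hν hs hs2 hx hb
  -- the truncated solutions
  have hex : ∀ N : ℕ, ∃ Y : ℕ → ℝ → ℝ, Gal β ν ((N : ℝ) + 1) N x Y := fun N =>
    stmA β ν ((N : ℝ) + 1) N x hν (by positivity)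
  choose Y hY using hex
  have hpos : ∀ n : ℕ, (0 : ℝ) < 2 ^ (s * n) := fun n => Real.rpow_pos_of_pos two_pos _
  obtain ⟨M, hM⟩ : ∃ M : ℕ → ℝ, ∀ n, M n = C / (2 : ℝ) ^ (s * n) := ⟨fun n => _, fun n => rfl⟩
  have hYn : ∀ N : ℕ, ∀ t ∈ Icc (0 : ℝ) ((N : ℝ) + 1), ∀ n, 0 ≤ Y N n t := fun N t ht n =>
    gal_nn hx (hY N) t ht n
  have hYM : ∀ N : ℕ, ∀ t ∈ Icc (0 : ℝ) ((N : ℝ) + 1), ∀ n, Y N n t ≤ M n := by
    intro N t ht n
    have := hb ((N : ℝ) + 1) N (Y N) (by positivity) (hY N) t ht n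
    rw [hM, le_div_iff₀ (hpos n)]
    linarith
  have hYa : ∀ N : ℕ, ∀ t ∈ Icc (0 : ℝ) ((N : ℝ) + 1), ∀ n, |Y N n t| ≤ M n := by
    intro N t ht n
    rw [abs_of_nonneg (hYn N t ht n)]
    exact hYM N t ht n
  set U : Ultrafilter ℕ := hyperfilter ℕ with hU
  have hUle : (U : Filter ℕ) ≤ atTop := Nat.hyperfilter_le_atTop
  have hev : ∀ t : ℝ, 0 ≤ t → ∀ᶠ N : ℕ in U, t ∈ Icc (0 : ℝ) ((N : ℝ) + 1) := by
    intro t ht
    have h1 : ∀ᶠ N : ℕ in atTop, t ≤ (N : ℝ) := eventually_ge_atTop ⌈t⌉₊ |>.mono fun N hN =>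
      (Nat.le_ceil t).trans (by exact_mod_cast hN)
    have h2 : ∀ᶠ N : ℕ in U, t ≤ (N : ℝ) := hUle h1
    exact h2.mono fun N hN => ⟨ht, by linarith⟩
  have hlim : ∀ (n : ℕ) (t : ℝ), ∃ l : ℝ, 0 ≤ t → Tendsto (fun N => Y N n t) U (𝓝 l) := by
    intro n t
    by_cases ht : 0 ≤ t
    · have h1 : Icc 0 (M n) ∈ U.map fun N => Y N n t := by
        rw [Ultrafilter.mem_map]
        filter_upwards [hev t ht] with N hN
        exact ⟨hYn N t hN n, hYM N t hN n⟩
      obtain ⟨l, -, hl⟩ := isCompact_Icc.ultrafilter_le_nhds (U.map fun N => Y N n t)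
        (le_principal_iff.2 h1)
      exact ⟨l, fun _ => hl⟩
    · exact ⟨0, fun h => absurd h ht⟩
  choose X hX using hlim
  have hrhs : ∀ (n : ℕ) (t : ℝ), 0 ≤ t →
      Tendsto (fun N => rhs β ν (fun k => Y N k t) n) U (𝓝 (rhs β ν (fun k => X k t) n)) := by
    intro n t ht
    cases n with
    | zero =>
      simp only [rhs]
      exact (((hX 0 t ht).mul (hX 1 t ht)).neg).sub ((hX 0 t ht).const_mul ν)
    | succ n =>
      simp only [rhs]
      exact ((((hX n t ht).pow 2).const_mul _).sub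
        (((hX (n + 1) t ht).mul (hX (n + 2) t ht)).const_mul _)).sub
        ((hX (n + 1) t ht).const_mul _)
  have htay : ∀ (n : ℕ) (t : ℝ), 0 ≤ t → ∀ r : ℝ, 0 ≤ r →
      |X n r - X n t - (r - t) * rhs β ν (fun k => X k t) n|
        ≤ Lb β ν M (Rb β ν M) n * |r - t| ^ 2 := by
    intro n t ht r hr
    have h1 : Tendsto (fun N => |Y N n r - Y N n t - (r - t) * rhs β ν (fun k => Y N k t) n|) U
        (𝓝 |X n r - X n t - (r - t) * rhs β ν (fun k => X k t) n|) :=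
      (((hX n r hr).sub (hX n t ht)).sub ((hrhs n t ht).const_mul _)).abs
    refine le_of_tendsto h1 ?_
    have h2 : ∀ᶠ N : ℕ in U, n + 1 ≤ N := hUle (eventually_ge_atTop (n + 1))
    filter_upwards [hev t ht, hev r hr, h2] with N hN1 hN2 hN3
    exact gal_taylor hν (hY N) (hYa N) hN3 hN1 hN2
  have hd : ∀ (n : ℕ) (t : ℝ), 0 ≤ t →
      HasDerivWithinAt (X n) (rhs β ν (fun k => X k t) n) (Ici 0) t := fun n t ht =>
    hd_of_sq fun r hr => htay n t ht r hr
  refine ⟨X, ⟨?_, ?_, ?_⟩, ?_, ?_⟩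
  · intro n
    refine tendsto_nhds_unique (hX n 0 le_rfl) ?_
    refine tendsto_const_nhds.congr' ?_
    have h2 : ∀ᶠ N : ℕ in U, n ≤ N := hUle (eventually_ge_atTop n)
    filter_upwards [h2] with N hN
    exact ((hY N).init n hN).symm
  · exact fun n t ht => (hd n t ht).continuousWithinAt
  · exact fun n t ht => (hd n t ht.le).hasDerivAt (Ici_mem_nhds ht)
  · intro n t ht
    refine ge_of_tendsto (hX n t ht) ?_
    filter_upwards [hev t ht] with N hN
    exact hYn N t hN n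
  · intro n t B ht hB
    refine le_of_tendsto (hX n t ht) ?_
    filter_upwards [hev t ht] with N hN
    exact hB ((N : ℝ) + 1) N (Y N) (by positivity) hN.2 (hY N)

end Pool.Agent.Run7.h32.Dy
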